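import Pool.Agent.SPD.Defs
import Pool.Agent.AE15.Reach

/-!
# Two-sided cuts of tournaments: the sides of a cut
-/

namespace AECut

open Finset AE15 SPD
open scoped Classical

variable {V : Type*} {R : V → V → Prop}

/-- `w` is out-good for `P` in the ambient set `U`: every closed subset of `U` containing the out-neighbours of `w`
contains all but at most `t` vertices of `P` -/
def OG (R : V → V → Prop) (U P : Finset V) (κ t : ℝ) (w : V) : Prop :=
  ∀ C ⊆ U, nO R U w ⊆ C → Closed R κ U C → ((P \ C).card : ℝ) ≤ t

/-- the strong dominators of `u` in `P` among the out-neighbours of `y`: they reach robustly almost all of `P`, and so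
do at least `c` of their in-neighbours -/
noncomputable def Dm (R : V → V → Prop) (U P : Finset V) (k t : ℝ) (c : ℕ) (y u : V) : Finset V :=
  P.filter (fun w => R y w ∧ R w u ∧ Rea R U P k t w ∧ c ≤ (U.filter (fun z => R z w ∧ Rea R U P k t z)).card)

/-- one side of a cut at `y`, in the ambient set `U` -/
structure Side (R : V → V → Prop) (U P : Finset V) (k t s : ℝ) (c : ℕ) (y : V) : Prop where
  sub : P ⊆ U
  notMem : y ∉ P
  reach : Rea R U P k t y
  lin : s * P.card ≤ ((P.filter (fun w => R y w ∧ Rea R U P k t w)).card : ℝ)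
  dom : ∀ u ∈ P, R u y → (Dm R U P k t c y u).Nonempty

/-- one side of a cut at `y`, with the count of the vertices having few dominators -/
structure SideC (R : V → V → Prop) (U P : Finset V) (k t s τ : ℝ) (c : ℕ) (y : V) : Prop where
  side : Side R U P k t s c y
  cnt : ∀ j : ℕ, (j : ℝ) ≤ τ * P.card →
    (P.filter (fun u => R u y ∧ (Dm R U P k t c y u).card ≤ j)).card ≤ 2 * j

theorem mem_Dm {U P : Finset V} {k t : ℝ} {c : ℕ} {y u w : V} : w ∈ Dm R U P k t c y u ↔
    w ∈ P ∧ R y w ∧ R w u ∧ Rea R U P k t w ∧ c ≤ (U.filter (fun z => R z w ∧ Rea R U P k t z)).card := by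
  simp [Dm]

/-- out-good vertices reach robustly almost all of `P` -/
theorem OG.rea {U P : Finset V} {κ t : ℝ} {w : V} (h : OG R U P κ t w) : Rea R U P (κ * U.card) t w := by
  classical
  have hne : (U.powerset.filter (fun W => Rch R U (κ * U.card) w W)).Nonempty := by
    refine ⟨nO R U w, ?_⟩
    simp only [mem_filter, mem_powerset]
    exact ⟨nO_sub, Rch.base⟩
  obtain ⟨W, hW, hmax⟩ := exists_max_image _ (fun W => W.card) hne
  simp only [mem_filter, mem_powerset] at hW hmax
  refine ⟨W, hW.2, h W hW.1 ?_ ?_⟩
  · have : ∀ W', Rch R U (κ * U.card) w W' → nO R U w ⊆ W' := by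
      intro W' h'
      induction h' with
      | base => exact Subset.refl _
      | step W z _ _ _ _ ih => exact ih.trans (subset_insert _ _)
    exact this W hW.2
  · intro z hz hzW
    by_contra hc
    push Not at hc
    have h1 := hmax (insert z W) ⟨insert_subset hz hW.1, Rch.step W z hW.2 hz hzW hc⟩
    rw [card_insert_of_notMem hzW] at h1
    omega

/-- the sides of a cut in the form used for spiders -/
theorem Side.sd (hT : AE32.Tour R) {U P : Finset V} {k t s : ℝ} {c : ℕ} {y : V} (h : Side R U P k t s c y) :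
    Sd R U P k t y := by
  refine ⟨h.reach, fun u hu => ?_⟩
  by_cases hy : R y u
  · exact Or.inl hy
  · have hne : u ≠ y := fun e => h.notMem (e ▸ hu)
    obtain ⟨w, hw⟩ := h.dom u hu ((hT.tot u y hne).resolve_right hy)
    rw [mem_Dm] at hw
    exact Or.inr ⟨w, hw.1, hw.2.1, hw.2.2.1, hw.2.2.2.1⟩

end AECut
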