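import Pool.Agent.AECut.CutS2

/-!
# The two-sided cut lemma
-/

namespace AECut

open Finset AE15 SPD
open scoped Classical

variable {V : Type*} {R : V → V → Prop}

theorem rch_mono {X W : Finset V} {k k' : ℝ} {v : V} (h : Rch R X k v W) (hk : k' ≤ k) : Rch R X k' v W := by
  induction h with
  | base => exact Rch.base
  | step W z _ hz hzW hc ih => exact Rch.step W z ih hz hzW (hk.trans hc)

theorem rea_mono {U P : Finset V} {k k' t t' : ℝ} {w : V} (h : Rea R U P k t w) (hk : k' ≤ k) (ht : t ≤ t') :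
    Rea R U P k' t' w := by
  obtain ⟨W, h1, h2⟩ := h
  exact ⟨W, rch_mono h1 hk, h2.trans ht⟩

theorem Dm_mono {U P : Finset V} {k k' t t' : ℝ} {c : ℕ} {y u : V} (hk : k' ≤ k) (ht : t ≤ t') :
    Dm R U P k t c y u ⊆ Dm R U P k' t' c y u := by
  intro w hw
  rw [mem_Dm] at hw ⊢
  refine ⟨hw.1, hw.2.1, hw.2.2.1, rea_mono hw.2.2.2.1 hk ht, hw.2.2.2.2.trans (card_le_card ?_)⟩
  intro z hz
  rw [mem_filter] at hz ⊢
  exact ⟨hz.1, hz.2.1, rea_mono hz.2.2 hk ht⟩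

theorem Side.mono {U P : Finset V} {k k' t t' s s' : ℝ} {c : ℕ} {y : V} (h : Side R U P k t s c y) (hk : k' ≤ k)
    (ht : t ≤ t') (hs : s' ≤ s) : Side R U P k' t' s' c y := by
  refine ⟨h.sub, h.notMem, rea_mono h.reach hk ht, ?_, fun u hu huy => (h.dom u hu huy).mono (Dm_mono hk ht)⟩
  have h1 : ((P.filter (fun w => R y w ∧ Rea R U P k t w)).card : ℝ) ≤
      (P.filter (fun w => R y w ∧ Rea R U P k' t' w)).card := by
    apply Nat.cast_le.2
    apply card_le_card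
    intro w hw
    rw [mem_filter] at hw ⊢
    exact ⟨hw.1, hw.2.1, rea_mono hw.2.2 hk ht⟩
  have h2 := mul_le_mul_of_nonneg_right hs (Nat.cast_nonneg P.card)
  exact h2.trans (h.lin.trans h1)

theorem SideC.mono {U P : Finset V} {k k' t t' s s' τ τ' : ℝ} {c : ℕ} {y : V} (h : SideC R U P k t s τ c y)
    (hk : k' ≤ k) (ht : t ≤ t') (hs : s' ≤ s) (hτ : τ' ≤ τ) : SideC R U P k' t' s' τ' c y := by
  refine ⟨h.side.mono hk ht hs, fun j hj => ?_⟩
  refine le_trans (card_le_card ?_) (h.cnt j (hj.trans (mul_le_mul_of_nonneg_right hτ (Nat.cast_nonneg _))))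
  intro u hu
  rw [mem_filter] at hu ⊢
  exact ⟨hu.1, hu.2.1, (card_le_card (Dm_mono hk ht)).trans hu.2.2⟩

/-- **The two-sided cut lemma**: in every tournament and for every `p` which is not too small there are a vertex `y`
and disjoint sets `P₁`, `P₂` covering all but at most `4 c + 1` vertices, `P₁` of size `p`, such that `y` is a good
place for everything which has to go out into `P₂` and to come in from `P₁`. -/
theorem cut (c : ℕ) {β ζ : ℝ} (hβ : 0 < β) (hβ1 : β ≤ 1) (hζ : 0 < ζ) : ∃ (κ ξ s τ : ℝ) (n₀ : ℕ),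
    0 < κ ∧ 0 < ξ ∧ 0 < s ∧ 0 < τ ∧ ∀ {V : Type*} {R : V → V → Prop}, AE32.Tour R → ∀ (X : Finset V) (p : ℕ),
      n₀ ≤ p → 2 * p + 1 ≤ X.card → ∃ (y : V) (P₁ P₂ U₁ : Finset V), y ∈ X ∧ P₁ ⊆ U₁ ∧ P₂ ⊆ X ∧ U₁ ⊆ X ∧ y ∈ U₁ ∧
        Disjoint P₁ P₂ ∧ P₁.card = p ∧ P₂.card + p + 1 ≤ X.card ∧ X.card ≤ P₂.card + p + 1 + 4 * c ∧
        (U₁ = X ∨ (U₁.card : ℝ) ≤ ζ * X.card) ∧ ξ * U₁.card ≤ p ∧
        Side R X P₂ (κ * X.card) (β * P₂.card) s c y ∧
        SideC (rv R) U₁ P₁ (κ * U₁.card) (β * p) s τ c y := by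
  -- constants of the small case
  obtain ⟨η, hη⟩ : ∃ η : ℝ, η = β / 8 := ⟨_, rfl⟩
  obtain ⟨κ₀, hκ₀⟩ : ∃ κ₀ : ℝ, κ₀ = min (η / 20) (ζ / 3) := ⟨_, rfl⟩
  have hη0 : 0 < η := by rw [hη]; positivity
  have hκ₀0 : 0 < κ₀ := by rw [hκ₀]; exact lt_min (by positivity) (by positivity)
  have hκη : 20 * κ₀ ≤ η := by
    have : κ₀ ≤ η / 20 := by rw [hκ₀]; exact min_le_left _ _
    linarith
  have hκζ : 3 * κ₀ ≤ ζ := by
    have : κ₀ ≤ ζ / 3 := by rw [hκ₀]; exact min_le_right _ _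
    linarith
  -- constants of the linear case
  obtain ⟨η', hη'⟩ : ∃ η' : ℝ, η' = κ₀ * β / 8 := ⟨_, rfl⟩
  obtain ⟨κ₁, hκ₁⟩ : ∃ κ₁ : ℝ, κ₁ = η' / 20 := ⟨_, rfl⟩
  have hη'0 : 0 < η' := by rw [hη']; positivity
  have hκ₁0 : 0 < κ₁ := by rw [hκ₁]; positivity
  have hη'κ : η' ≤ κ₀ / 8 := by rw [hη']; nlinarith
  have hκ₁₀ : κ₁ ≤ κ₀ := by rw [hκ₁]; linarith
  have hη8 : η ≤ 1 / 8 := by rw [hη]; linarith
  obtain ⟨n₀, hn₀⟩ : ∃ n₀ : ℕ, n₀ = ⌈(8 + 4 * (c : ℝ)) / κ₁⌉₊ := ⟨_, rfl⟩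
  refine ⟨κ₁ ^ 2 / 4, κ₀ / 4, η' / 4, η' / 8, n₀, by positivity, by positivity, by positivity, by positivity, ?_⟩
  intro V R hT X p hp hpX
  have hc0 : (0 : ℝ) ≤ c := Nat.cast_nonneg _
  have hp1 : (8 + 4 * (c : ℝ)) / κ₁ ≤ p := by
    refine (Nat.le_ceil _).trans ?_
    rw [← hn₀]
    exact_mod_cast hp
  have hp2 : 8 + 4 * (c : ℝ) ≤ κ₁ * p := by
    rw [div_le_iff₀ hκ₁0] at hp1
    linarith
  have hp3 : κ₁ * p ≤ κ₀ * p := mul_le_mul_of_nonneg_right hκ₁₀ (Nat.cast_nonneg _)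
  have hκ₀1 : κ₀ * p ≤ 1 / 100 * p := mul_le_mul_of_nonneg_right (by linarith) (Nat.cast_nonneg _)
  have hX1 : 2 * (p : ℝ) + 1 ≤ X.card := by exact_mod_cast hpX
  have hsq : κ₁ ^ 2 / 4 ≤ κ₀ ^ 2 / 4 := by nlinarith
  rcases le_total (p : ℝ) (κ₀ * X.card) with hs | hs
  · obtain ⟨y, P₁, P₂, U₁, h1, -, h3, h4, h5, h6, h7, h8, h9, h10, h11, h12⟩ :=
      cut_small hT hκ₀0 hκη hη8 (c := c) (p := p) (X := X) (by linarith) hs
    have hP2 : (X.card : ℝ) ≤ P₂.card + p + 1 + 4 * c := by exact_mod_cast h9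
    have hpc : 4 * (c : ℝ) + 8 ≤ 1 / 100 * p := by linarith
    have hκX : κ₀ * X.card ≤ 1 / 100 * X.card := mul_le_mul_of_nonneg_right (by linarith) (Nat.cast_nonneg _)
    have hP2' : (X.card : ℝ) / 2 ≤ P₂.card := by linarith
    have hU : (U₁.card : ℝ) ≤ 3 * p := by
      have : (U₁.card : ℝ) ≤ 2 * p + 4 * c + 1 := by exact_mod_cast h10
      linarith
    have hP₁U : P₁ ⊆ U₁ := h12.side.sub
    refine ⟨y, P₁, P₂, U₁, h1, hP₁U, h3, h4, h5, h6, h7, h8, h9, Or.inr ?_, ?_, ?_, ?_⟩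
    · have h13 : κ₀ * X.card * 3 ≤ ζ * X.card := by
        have := mul_le_mul_of_nonneg_right hκζ (Nat.cast_nonneg (α := ℝ) X.card)
        linarith
      linarith
    · have h13 : κ₀ / 4 * U₁.card ≤ κ₀ / 4 * (3 * p) := mul_le_mul_of_nonneg_left hU (by positivity)
      linarith
    · refine h11.mono ?_ ?_ ?_
      · exact mul_le_mul_of_nonneg_right hsq (Nat.cast_nonneg _)
      · have h13 : β * (X.card / 2) ≤ β * P₂.card := mul_le_mul_of_nonneg_left hP2' hβ.le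
        rw [hη]
        linarith [mul_nonneg hβ.le (Nat.cast_nonneg (α := ℝ) X.card)]
      · linarith
    · refine h12.mono ?_ ?_ ?_ ?_
      · exact mul_le_mul_of_nonneg_right hsq (Nat.cast_nonneg _)
      · have h13 : 2 * η * U₁.card ≤ 2 * η * (3 * p) := mul_le_mul_of_nonneg_left hU (by positivity)
        rw [hη] at h13 ⊢
        linarith [mul_nonneg hβ.le (Nat.cast_nonneg (α := ℝ) p)]
      · linarith
      · linarith
  · have hX0 : (0 : ℝ) ≤ X.card := Nat.cast_nonneg _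
    have hη'X : η' * X.card ≤ 1 / 8 * (κ₀ * X.card) := by
      have := mul_le_mul_of_nonneg_right hη'κ hX0
      linarith
    have hκ₀X : κ₀ * X.card ≤ 1 / 100 * X.card := mul_le_mul_of_nonneg_right (by linarith) hX0
    have hκ₁X : κ₁ * p ≤ κ₁ * X.card := mul_le_mul_of_nonneg_left (by linarith) hκ₁0.le
    obtain ⟨y, P₁, P₂, h1, h2, h3, h4, h5, h6, h7, h8, h9⟩ := cut_lin hT (X := X) (p := p) (c := c) (κ₀ := κ₁)
      (η := η') hκ₁0 (by linarith) (by rw [hκ₁]; linarith) (by linarith) (by linarith) (by linarith)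
    have hP2 : (X.card : ℝ) ≤ P₂.card + p + 1 + 4 * c := by exact_mod_cast h7
    have hpc : 4 * (c : ℝ) + 8 ≤ 1 / 100 * p := by linarith
    have hP2' : (X.card : ℝ) / 4 ≤ P₂.card := by linarith
    refine ⟨y, P₁, P₂, X, h1, h2, h3, Subset.refl _, h1, h4, h5, h6, h7, Or.inl rfl, by linarith, ?_, ?_⟩
    · refine h8.side.mono le_rfl ?_ le_rfl
      have h13 : β * (X.card / 4) ≤ β * P₂.card := mul_le_mul_of_nonneg_left hP2' hβ.le
      have h14 : 2 * η' * X.card = (κ₀ * (β * X.card)) / 4 := by rw [hη']; ring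
      have h15 : κ₀ * (β * X.card) ≤ 1 / 100 * (β * X.card) :=
        mul_le_mul_of_nonneg_right (by linarith) (mul_nonneg hβ.le hX0)
      rw [h14]
      linarith [mul_nonneg hβ.le hX0]
    · refine h9.mono le_rfl ?_ le_rfl le_rfl
      have h14 : 2 * η' * X.card = β * (κ₀ * X.card) / 4 := by rw [hη']; ring
      have h15 : β * (κ₀ * X.card) ≤ β * p := mul_le_mul_of_nonneg_left hs hβ.le
      rw [h14]
      linarith [mul_nonneg hβ.le (Nat.cast_nonneg (α := ℝ) p)]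

end AECut
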