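import Pool.Agent.AECut.SideC

/-!
# The two-sided cut: both parts of linear size
-/

namespace AECut

open Finset AE15 SPD
open scoped Classical

variable {V : Type*} {R : V → V → Prop}

theorem few_of_notMem_base {κ₀ : ℝ} {U U₀ : Finset V} (h0 : 0 ≤ κ₀)
    (hstr : ∀ z ∈ U, z ∉ U₀ → ((nO R U₀ z).card : ℝ) < κ₀ * U.card) {u : V} (hu : u ∈ U)
    (hub : u ∉ base R κ₀ U U₀) : ((nO R U₀ u).card : ℝ) ≤ 2 * κ₀ * U.card := by
  by_cases hu0 : u ∈ U₀
  · by_contra hc
    push Not at hc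
    exact hub (mem_base.2 ⟨hu0, hc.le⟩)
  · have h5 := hstr u hu hu0
    have h6 : 0 ≤ κ₀ * U.card := by positivity
    linarith

theorem card_sdiff_base (hT : AE32.Tour R) {κ₀ : ℝ} {U U₀ : Finset V} (h0 : 0 ≤ κ₀) (hU : U₀ ⊆ U) :
    ((U \ base R κ₀ U U₀).card : ℝ) + U₀.card ≤ U.card + 4 * κ₀ * U.card + 1 := by
  have h1 : U \ base R κ₀ U U₀ ⊆ (U \ U₀) ∪ U₀.filter (fun u => ((nO R U₀ u).card : ℝ) < 2 * κ₀ * U.card) := by
    intro u hu
    rw [mem_sdiff] at hu
    rw [mem_union, mem_sdiff, mem_filter]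
    by_cases hu0 : u ∈ U₀
    · right
      refine ⟨hu0, ?_⟩
      by_contra hc
      push Not at hc
      exact hu.2 (mem_base.2 ⟨hu0, hc⟩)
    · exact Or.inl ⟨hu.1, hu0⟩
  have h2 := card_few hT U₀ (k := 2 * κ₀ * U.card) (by positivity)
  have h3 : ((U \ base R κ₀ U U₀).card : ℝ) ≤ ((U \ U₀).card : ℝ) +
      (U₀.filter (fun u => ((nO R U₀ u).card : ℝ) < 2 * κ₀ * U.card)).card := by
    exact_mod_cast (card_le_card h1).trans (card_union_le _ _)
  have h4 : ((U \ U₀).card : ℝ) + U₀.card = U.card := by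
    exact_mod_cast card_sdiff_add_card_eq_card hU
  linarith

/-- the vertices of in-degree less than `c` in a set -/
theorem card_lowin (hT : AE32.Tour R) (c : ℕ) (G : Finset V) :
    (G.filter (fun w => (nI R G w).card < c)).card ≤ 2 * c := by
  rcases c with _ | c
  · simp
  · have h := card_low (tour_rev hT) G c
    have h1 : G.filter (fun w => (nI R G w).card < c + 1) =
        G.filter (fun v => (nO (fun a b => R b a) G v).card ≤ c) := by
      apply filter_congr
      intro u _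
      rw [Nat.lt_succ_iff]
      rfl
    rw [h1]
    omega

/-- **The cut lemma, both parts of linear size** -/
theorem cut_lin (hT : AE32.Tour R) {X : Finset V} {p c : ℕ} {κ₀ η : ℝ} (h0 : 0 < κ₀) (h1 : κ₀ ≤ 1 / 4)
    (hη : 20 * κ₀ ≤ η) (hn : 8 + 4 * c ≤ κ₀ * X.card) (hp : η * X.card ≤ p) (hp' : (p : ℝ) + η * X.card ≤ X.card) :
    ∃ (y : V) (P₁ P₂ : Finset V), y ∈ X ∧ P₁ ⊆ X ∧ P₂ ⊆ X ∧ Disjoint P₁ P₂ ∧ P₁.card = p ∧
      P₂.card + p + 1 ≤ X.card ∧ X.card ≤ P₂.card + p + 1 + 4 * c ∧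
      SideC R X P₂ (κ₀ ^ 2 / 4 * X.card) (2 * η * X.card) (η / 4) (η / 8) c y ∧
      SideC (rv R) X P₁ (κ₀ ^ 2 / 4 * X.card) (2 * η * X.card) (η / 4) (η / 8) c y := by
  obtain ⟨n, hnd⟩ : ∃ n : ℝ, n = (X.card : ℝ) := ⟨_, rfl⟩
  have hc0 : (0 : ℝ) ≤ c := by positivity
  have hn1 : 1 ≤ κ₀ * X.card := by linarith
  have hn8 : 8 ≤ κ₀ * X.card := by linarith
  have hκn : 0 ≤ κ₀ * X.card := by linarith
  have hηn : 20 * (κ₀ * X.card) ≤ η * X.card := by
    have : (0 : ℝ) ≤ X.card := by positivity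
    nlinarith
  have hκ2 : κ₀ ^ 2 / 2 * X.card ≤ κ₀ * X.card := by
    have : (0 : ℝ) ≤ X.card := by positivity
    nlinarith
  obtain ⟨U₀, hU₀, hU₀c, hU₀s, hU₀cl⟩ := struct_size hT X (κ₀ := κ₀) (s := p + η * X.card) h0 (by linarith)
    (by linarith) hn1
  obtain ⟨O₀, hO₀, hO₀c, hO₀s, hO₀cl⟩ := struct_size (tour_rev hT) X (κ₀ := κ₀) (s := X.card - p + η * X.card) h0
    (by linarith) (by linarith) hn1
  set GU := base R κ₀ X U₀ with hGU
  set GO := base (rv R) κ₀ X O₀ with hGO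
  have hGUX : GU ⊆ X := base_sub.trans hU₀
  have hGOX : GO ⊆ X := base_sub.trans hO₀
  have hEp : ((X \ GU).card : ℝ) + U₀.card ≤ X.card + 4 * κ₀ * X.card + 1 := card_sdiff_base hT h0.le hU₀
  have hEm : ((X \ GO).card : ℝ) + O₀.card ≤ X.card + 4 * κ₀ * X.card + 1 := card_sdiff_base (tour_rev hT) h0.le hO₀
  have hfp : ∀ u ∈ X, u ∉ GU → ((nO R U₀ u).card : ℝ) ≤ 2 * κ₀ * X.card := fun u hu hu' =>
    few_of_notMem_base h0.le hU₀s hu hu'
  have hfm : ∀ u ∈ X, u ∉ GO → ((nI R O₀ u).card : ℝ) ≤ 2 * κ₀ * X.card := fun u hu hu' =>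
    few_of_notMem_base (R := rv R) h0.le hO₀s hu hu'
  -- no vertex is outside both bases
  have hcov : ∀ u ∈ X, u ∉ GU → u ∈ GO := by
    intro u hu hu1
    by_contra hu2
    have h2 := hfp u hu hu1
    have h3 := hfm u hu hu2
    have h4 : U₀ ∩ O₀ ⊆ {u} ∪ (nO R U₀ u ∪ nI R O₀ u) := by
      intro w hw
      rw [mem_inter] at hw
      rw [mem_union, mem_union, mem_singleton, mem_nO, mem_nI]
      by_cases hwu : w = u
      · exact Or.inl hwu
      · rcases hT.tot u w (Ne.symm hwu) with h | h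
        · exact Or.inr (Or.inl ⟨hw.1, h⟩)
        · exact Or.inr (Or.inr ⟨hw.2, h⟩)
    have h5 : ((U₀ ∩ O₀).card : ℝ) ≤ 1 + ((nO R U₀ u).card + (nI R O₀ u).card) := by
      have h6 := card_le_card h4
      have h7 := card_union_le {u} (nO R U₀ u ∪ nI R O₀ u)
      have h8 := card_union_le (nO R U₀ u) (nI R O₀ u)
      rw [card_singleton] at h7
      exact_mod_cast (by omega : (U₀ ∩ O₀).card ≤ 1 + ((nO R U₀ u).card + (nI R O₀ u).card))
    have h6 : (U₀.card : ℝ) + O₀.card ≤ (U₀ ∩ O₀).card + X.card := by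
      have h7 := card_union_add_card_inter U₀ O₀
      have h8 := card_le_card (union_subset hU₀ hO₀)
      exact_mod_cast (by omega : U₀.card + O₀.card ≤ (U₀ ∩ O₀).card + X.card)
    linarith
  -- the waste
  set W := (GU ∩ GO).filter (fun w => (nI R GU w).card < c ∨ (nO R GO w).card < c) with hW
  have hWc : W.card ≤ 4 * c := by
    have h2 : W ⊆ GU.filter (fun w => (nI R GU w).card < c) ∪ GO.filter (fun w => (nI (rv R) GO w).card < c) := by
      intro w hw
      rw [hW, mem_filter, mem_inter] at hw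
      rw [mem_union, mem_filter, mem_filter]
      rcases hw.2 with h | h
      · exact Or.inl ⟨hw.1.1, h⟩
      · exact Or.inr ⟨hw.1.2, h⟩
    have h3 := card_lowin hT c GU
    have h4 := card_lowin (rv_tour hT) c GO
    have h5 := (card_le_card h2).trans (card_union_le _ _)
    omega
  set Z := (GU ∩ GO) \ W with hZ
  have hWsub : W ⊆ GU ∩ GO := filter_subset _ _
  have hpartU : GU = Z ∪ ((X \ GO) ∪ W) := by
    ext u
    simp only [hZ, mem_union, mem_sdiff, mem_inter]
    constructor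
    · intro hu
      by_cases h2 : u ∈ GO
      · by_cases h3 : u ∈ W
        · exact Or.inr (Or.inr h3)
        · exact Or.inl ⟨⟨hu, h2⟩, h3⟩
      · exact Or.inr (Or.inl ⟨hGUX hu, h2⟩)
    · rintro (h | h | h)
      · exact h.1.1
      · by_contra hc
        exact h.2 (hcov u h.1 hc)
      · exact (mem_inter.1 (hWsub h)).1
  have hpartO : GO = Z ∪ ((X \ GU) ∪ W) := by
    ext u
    simp only [hZ, mem_union, mem_sdiff, mem_inter]
    constructor
    · intro hu
      by_cases h2 : u ∈ GU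
      · by_cases h3 : u ∈ W
        · exact Or.inr (Or.inr h3)
        · exact Or.inl ⟨⟨h2, hu⟩, h3⟩
      · exact Or.inr (Or.inl ⟨hGOX hu, h2⟩)
    · rintro (h | h | h)
      · exact h.1.2
      · exact hcov u h.1 h.2
      · exact (mem_inter.1 (hWsub h)).2
  have hcard : Z.card + (X \ GO).card + W.card + (X \ GU).card = X.card := by
    have h2 : GU.card = Z.card + (X \ GO).card + W.card := by
      rw [hpartU, card_union_of_disjoint, card_union_of_disjoint, add_assoc]
      · rw [disjoint_left]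
        intro u hu hu'
        exact (mem_sdiff.1 hu).2 (mem_inter.1 (hWsub hu')).2
      · rw [disjoint_left]
        intro u hu hu'
        rw [hZ, mem_sdiff, mem_inter] at hu
        rw [mem_union, mem_sdiff] at hu'
        rcases hu' with h | h
        · exact h.2 hu.1.2
        · exact hu.2 h
    have h3 := card_sdiff_add_card_eq_card hGUX
    omega
  -- the sizes
  have hW4 : (W.card : ℝ) ≤ 4 * c := by exact_mod_cast hWc
  have hcardR : (Z.card : ℝ) + (X \ GO).card + W.card + (X \ GU).card = X.card := by exact_mod_cast hcard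
  have hz1 : ((X \ GO).card : ℝ) + (η * X.card - 4 * κ₀ * X.card - 1) ≤ p := by linarith
  have hz1' : (X \ GO).card ≤ p := by
    have : ((X \ GO).card : ℝ) ≤ p := by linarith
    exact_mod_cast this
  have hz2' : p + 1 + W.card + (X \ GU).card ≤ X.card := by
    have : (p : ℝ) + 1 + W.card + (X \ GU).card ≤ X.card := by linarith
    exact_mod_cast this
  obtain ⟨Z₁, Z₂, y, hcut, hc1, hc2⟩ := exists_cut hT Z (p - (X \ GO).card)
    (X.card - (p + 1 + W.card + (X \ GU).card)) (by omega)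
  have hyZ : y ∈ Z := by rw [hcut.hZ]; exact mem_insert_self _ _
  have hZ1 : Z₁ ⊆ Z := by rw [hcut.hZ]; exact subset_union_left.trans (subset_insert _ _)
  have hZ2 : Z₂ ⊆ Z := by rw [hcut.hZ]; exact subset_union_right.trans (subset_insert _ _)
  have hZU : Z ⊆ GU := by rw [hpartU]; exact subset_union_left
  have hZO : Z ⊆ GO := by rw [hpartO]; exact subset_union_left
  have hD2 : CutData R κ₀ (p + η * X.card) c X U₀ (X \ GO) W Z Z₁ Z₂ y := by
    refine ⟨hcut, hU₀, hU₀s, hU₀cl, hpartU, ?_, ?_⟩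
    · intro a ha
      rw [mem_sdiff] at ha
      refine le_trans ?_ (hfm a ha.1 ha.2)
      exact_mod_cast card_le_card (nI_mono (hZO.trans base_sub))
    · intro w hw
      have hw' := hZ2 hw
      rw [hZ, mem_sdiff] at hw'
      by_contra hc
      push Not at hc
      exact hw'.2 (mem_filter.2 ⟨hw'.1, Or.inl hc⟩)
  have hD1 : CutData (rv R) κ₀ (X.card - p + η * X.card) c X O₀ (X \ GU) W Z Z₂ Z₁ y := by
    refine ⟨hcut.rev, hO₀, hO₀s, hO₀cl, hpartO, ?_, ?_⟩
    · intro a ha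
      rw [mem_sdiff] at ha
      refine le_trans ?_ (hfp a ha.1 ha.2)
      have : nI (rv R) Z a = nO R Z a := rfl
      rw [this]
      exact_mod_cast card_le_card (nO_mono (hZU.trans base_sub))
    · intro w hw
      have hw' := hZ1 hw
      rw [hZ, mem_sdiff] at hw'
      by_contra hc
      push Not at hc
      exact hw'.2 (mem_filter.2 ⟨hw'.1, Or.inr hc⟩)
  have hP2 : (Z₂ ∪ (X \ GU)).card = Z₂.card + (X \ GU).card := by
    apply card_union_of_disjoint
    rw [disjoint_left]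
    intro u hu hu'
    exact (mem_sdiff.1 hu').2 (hZU (hZ2 hu))
  have hP1 : (Z₁ ∪ (X \ GO)).card = Z₁.card + (X \ GO).card := by
    apply card_union_of_disjoint
    rw [disjoint_left]
    intro u hu hu'
    exact (mem_sdiff.1 hu').2 (hZO (hZ1 hu))
  have hP1c : (Z₁ ∪ (X \ GO)).card = p := by omega
  have hP2c : (Z₂ ∪ (X \ GU)).card + p + 1 + W.card = X.card := by omega
  have hP2r : ((Z₂ ∪ (X \ GU)).card : ℝ) + p + 1 + W.card = X.card := by exact_mod_cast hP2c
  have hP1r : ((Z₁ ∪ (X \ GO)).card : ℝ) = p := by exact_mod_cast hP1c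
  have hZ1r : (Z₁.card : ℝ) + (X \ GO).card = p := by exact_mod_cast (by omega : Z₁.card + (X \ GO).card = p)
  have hZ2r : (Z₂.card : ℝ) + (X \ GU).card + p + 1 + W.card = X.card := by
    exact_mod_cast (by omega : Z₂.card + (X \ GU).card + p + 1 + W.card = X.card)
  have hW0 : (0 : ℝ) ≤ W.card := Nat.cast_nonneg _
  have hp0 : (0 : ℝ) ≤ p := Nat.cast_nonneg _
  have hη0 : 0 < η := by linarith only [h0, hη]
  have hη8 : 0 ≤ η / 8 := by linarith only [hη0]
  have hηX : 0 ≤ η * X.card := by linarith only [hηn, hκn]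
  have hnum1 : 8 * κ₀ * X.card + 1 ≤ 2 * η * X.card := by linarith only [hηn, hn8]
  have hZ2l : 3 / 4 * (η * X.card) ≤ (Z₂.card : ℝ) := by linarith only [hZ2r, hEp, hU₀c, hηn, hn, hW4, hc0]
  have hZ1l : 3 / 4 * (η * X.card) ≤ (Z₁.card : ℝ) := by linarith only [hZ1r, hz1, hηn, hn8]
  refine ⟨y, Z₁ ∪ (X \ GO), Z₂ ∪ (X \ GU), hGUX (hZU hyZ), union_subset (hZ1.trans (hZU.trans hGUX)) sdiff_subset,
    union_subset (hZ2.trans (hZU.trans hGUX)) sdiff_subset, ?_, hP1c, by omega, by omega, ?_, ?_⟩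
  · rw [disjoint_left]
    intro u hu hu'
    rw [mem_union, mem_sdiff] at hu hu'
    rcases hu with hu | hu
    · rcases hu' with h | h
      · exact (disjoint_left.1 hcut.hd) hu h
      · exact h.2 (hZU (hZ1 hu))
    · rcases hu' with h | h
      · exact hu.2 (hZO (hZ2 h))
      · exact hu.2 (hcov u h.1 h.2)
  · refine hD2.sideC hT h0 h1 hn8 hnum1 ?_ hη8 ?_ ?_
    · rw [← hGU]; linarith only [hP2r, hηn, hκ2, hn8, hκn]
    · rw [← hGU]
      have h2 : ((Z₂ ∪ (X \ GU)).card : ℝ) ≤ X.card := by linarith only [hP2r, hW0, hp0]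
      have h3 := mul_le_mul_of_nonneg_left h2 hη0.le
      linarith only [h3, hZ2l, hηX]
    · rw [← hGU]
      have h2 : ((Z₂ ∪ (X \ GU)).card : ℝ) ≤ X.card := by linarith only [hP2r, hW0, hp0]
      have h3 := mul_le_mul_of_nonneg_left h2 hη0.le
      linarith only [h3, hZ2l, hηX, hηn, hn8]
  · refine hD1.sideC (rv_tour hT) h0 h1 hn8 hnum1 ?_ hη8 ?_ ?_
    · rw [← hGO]; linarith only [hP1r, hηn, hκ2, hn, hW4, hκn, hc0]
    · rw [← hGO]
      have h2 : ((Z₁ ∪ (X \ GO)).card : ℝ) ≤ X.card := by linarith only [hP1r, hp', hηX]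
      have h3 := mul_le_mul_of_nonneg_left h2 hη0.le
      linarith only [h3, hZ1l, hηX]
    · rw [← hGO]
      have h2 : ((Z₁ ∪ (X \ GO)).card : ℝ) ≤ X.card := by linarith only [hP1r, hp', hηX]
      have h3 := mul_le_mul_of_nonneg_left h2 hη0.le
      linarith only [h3, hZ1l, hηX, hηn, hn8]

end AECut
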