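import Pool.Agent.AE15.Structure

/-!
# The dominance order of a tournament

`Down R G z`: the in-neighbours `u` of `z` in `G` all of whose in-neighbours in `G` are in-neighbours of `z`, that is,
the in-neighbours of `z` which are not dominated by an out-neighbour of `z` in `G`.
-/

namespace AECut

open Finset AE15
open scoped Classical

variable {V : Type*} {R : V → V → Prop}

/-- the in-neighbours of `z` in `G` without dominator in the out-neighbourhood of `z` in `G` -/
noncomputable def Down (R : V → V → Prop) (G : Finset V) (z : V) : Finset V :=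
  G.filter (fun u => R u z ∧ nI R G u ⊆ nI R G z)

theorem mem_Down {G : Finset V} {z u : V} : u ∈ Down R G z ↔ u ∈ G ∧ R u z ∧ nI R G u ⊆ nI R G z := by
  simp [Down]

theorem Down_sub {G : Finset V} {z : V} : Down R G z ⊆ G := filter_subset _ _

/-- an in-neighbour of `z` outside `Down z` has a dominator in the out-neighbourhood of `z` -/
theorem exists_dom_of_notMem_Down (hT : AE32.Tour R) {G : Finset V} {z u : V} (hz : z ∈ G) (hu : u ∈ G) (h : R u z)
    (hD : u ∉ Down R G z) : ∃ w ∈ G, R z w ∧ R w u := by
  have h1 : ¬ (nI R G u ⊆ nI R G z) := fun h1 => hD (mem_Down.2 ⟨hu, h, h1⟩)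
  rw [not_subset] at h1
  obtain ⟨w, hw, hw'⟩ := h1
  rw [mem_nI] at hw
  refine ⟨w, hw.1, ?_, hw.2⟩
  have hwz : w ≠ z := by
    rintro rfl
    exact hT.asym _ _ h hw.2
  rcases hT.tot z w (Ne.symm hwz) with h2 | h2
  · exact h2
  · exact absurd (mem_nI.2 ⟨hw.1, h2⟩) hw'

/-- transitivity -/
theorem Down_trans {G : Finset V} {u v z : V} (h : u ∈ Down R G v) (h' : v ∈ Down R G z) : u ∈ Down R G z := by
  rw [mem_Down] at h h' ⊢
  exact ⟨h.1, (mem_nI.1 (h'.2.2 (mem_nI.2 ⟨h.1, h.2.1⟩))).2, h.2.2.trans h'.2.2⟩

theorem Down_sub_Down {G : Finset V} {u z : V} (h : u ∈ Down R G z) : Down R G u ⊆ Down R G z :=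
  fun _ ht => Down_trans ht h

/-- the in-degree decreases strictly along the order -/
theorem card_nI_lt_of_mem_Down (hT : AE32.Tour R) {G : Finset V} {u z : V} (h : u ∈ Down R G z) :
    (nI R G u).card < (nI R G z).card := by
  rw [mem_Down] at h
  apply card_lt_card
  refine ⟨h.2.2, fun hc => ?_⟩
  exact hT.irr u (mem_nI.1 (hc (mem_nI.2 ⟨h.1, h.2.1⟩))).2

/-- the out-degree increases along the order -/
theorem card_nO_le_of_mem_Down (hT : AE32.Tour R) {G : Finset V} {u z : V} (hz : z ∈ G) (h : u ∈ Down R G z) :
    (nO R G z).card ≤ (nO R G u).card := by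
  have h1 := card_nI_lt_of_mem_Down hT h
  have h2 := card_nO_add_nI' hT hz
  have h3 := card_nO_add_nI' hT (mem_Down.1 h).1
  omega

/-- if every vertex not satisfying `S` (and of out-degree at least `m`) has more than `q` vertices below it, then it has
more than `q` vertices below it which satisfy `S` -/
theorem Down_small (hT : AE32.Tour R) {G : Finset V} {S : V → Prop} {m q : ℕ}
    (h : ∀ z ∈ G, ¬ S z → m ≤ (nO R G z).card → q < (Down R G z).card) :
    ∀ z ∈ G, ¬ S z → m ≤ (nO R G z).card → q < ((Down R G z).filter S).card := by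
  have key : ∀ k : ℕ, ∀ z ∈ G, (nI R G z).card = k → ¬ S z → m ≤ (nO R G z).card →
      q < ((Down R G z).filter S).card := by
    intro k
    induction k using Nat.strong_induction_on with
    | _ k ih =>
      intro z hz hk hB hm
      by_cases hc : ∃ u ∈ Down R G z, ¬ S u
      · obtain ⟨u, hu, hBu⟩ := hc
        have h1 := card_nI_lt_of_mem_Down hT hu
        have h2 := card_nO_le_of_mem_Down hT hz hu
        refine (ih _ (by omega) u (mem_Down.1 hu).1 rfl hBu (by omega)).trans_le (card_le_card ?_)
        exact filter_subset_filter _ (Down_sub_Down hu)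
      · push Not at hc
        rw [filter_true_of_mem hc]
        exact h z hz hB hm
  intro z hz hB hm
  exact key _ z hz rfl hB hm

end AECut
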