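import Pool.Agent.AECut.CutL
import Pool.Agent.AECut.Poset

/-!
# The two-sided cut: one part is small
-/

namespace AECut

open Finset AE15 SPD
open scoped Classical

variable {V : Type*} {R : V → V → Prop}

/-- the conclusion of the cut lemma -/
def CutC (R : V → V → Prop) (X : Finset V) (p c : ℕ) (κ₀ η : ℝ) : Prop :=
  ∃ (y : V) (P₁ P₂ U₁ : Finset V), y ∈ X ∧ P₁ ⊆ X ∧ P₂ ⊆ X ∧ U₁ ⊆ X ∧ y ∈ U₁ ∧ Disjoint P₁ P₂ ∧ P₁.card = p ∧
    P₂.card + p + 1 ≤ X.card ∧ X.card ≤ P₂.card + p + 1 + 4 * c ∧ U₁.card ≤ 2 * p + 4 * c + 1 ∧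
    Side R X P₂ (κ₀ ^ 2 / 4 * X.card) (2 * η * X.card) κ₀ c y ∧
    SideC (rv R) U₁ P₁ (κ₀ ^ 2 / 4 * U₁.card) (2 * η * U₁.card) κ₀ (η / 8) c y

theorem Good.rea {κ η t : ℝ} {X P : Finset V} {w : V} (h : Good R κ η X w) (hP : P ⊆ X) (ht : η * X.card ≤ t) :
    Rea R X P (κ * X.card) t w := by
  apply OG.rea
  intro C hC hwC hcl
  refine le_trans ?_ ((h C hC hwC hcl).trans ht)
  exact_mod_cast card_le_card (sdiff_subset_sdiff hP (Subset.refl _))

/-- one vertex `z` has few vertices below it and in-degree at least `p` -/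
theorem cut_small_one (hT : AE32.Tour R) {X G : Finset V} {p c m : ℕ} {κ₀ η : ℝ} (h0 : 0 < κ₀) (hη : 20 * κ₀ ≤ η)
    (hη1 : η ≤ 1 / 8) (hp : 8 + 4 * c ≤ κ₀ * p) (hGX : G ⊆ X)
    (hGd : ∀ g ∈ G, Good R (κ₀ ^ 2 / 4) η X g) (hGf : ∀ u ∈ X, u ∉ G → (nO R G u).card < m)
    (hm : κ₀ * X.card ≤ m) {Λ : Finset V} (hΛ : Λ = G.filter (fun w => (nI R G w).card < c)) {z : V}
    (hz : z ∈ G \ Λ) (hzp : p + 2 * c ≤ (nI R (X \ Λ) z).card) (hzm : m ≤ (nO R (G \ Λ) z).card)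
    (hD : (Down R (G \ Λ) z).card ≤ p + 2 * c) : CutC R X p c κ₀ η := by
  have hη0 : 0 < η := by linarith
  have hΛG : Λ ⊆ G := by rw [hΛ]; exact filter_subset _ _
  have hΛc : Λ.card ≤ 2 * c := by rw [hΛ]; exact card_lowin hT c G
  have hX'X : X \ Λ ⊆ X := sdiff_subset
  have hG'G : G \ Λ ⊆ G := sdiff_subset
  have hG'X' : G \ Λ ⊆ X \ Λ := sdiff_subset_sdiff hGX (Subset.refl _)
  have hzX : z ∈ X := hGX (hG'G hz)
  have hpn : p ≤ X.card := by
    have := card_le_card (nI_sub.trans hX'X : nI R (X \ Λ) z ⊆ X)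
    omega
  have hDn : Down R (G \ Λ) z ⊆ nI R (X \ Λ) z := by
    intro u hu
    rw [mem_Down] at hu
    exact mem_nI.2 ⟨hG'X' hu.1, hu.2.1⟩
  -- the first part
  obtain ⟨P₁, hP₁, hP₁c, hP₁D⟩ : ∃ P₁ ⊆ nI R (X \ Λ) z, P₁.card = p ∧
      (P₁ ∪ Down R (G \ Λ) z).card ≤ p + 2 * c := by
    rcases Nat.le_total (Down R (G \ Λ) z).card p with h | h
    · obtain ⟨P₁, h1, h2, h3⟩ := exists_subsuperset_card_eq hDn h (by omega)
      refine ⟨P₁, h2, h3, ?_⟩
      rw [union_eq_left.2 h1]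
      omega
    · obtain ⟨P₁, h1, h2⟩ := exists_subset_card_eq h
      refine ⟨P₁, h1.trans hDn, h2, ?_⟩
      rw [union_eq_right.2 h1]
      exact hD
  have hP₁z : ∀ u ∈ P₁, R u z := fun u hu => (mem_nI.1 (hP₁ hu)).2
  have hP₁X : P₁ ⊆ X := hP₁.trans (nI_sub.trans hX'X)
  have hzP₁ : z ∉ P₁ := fun h => hT.irr z (hP₁z z h)
  set P₂ := (X \ Λ) \ insert z (P₁ ∪ Down R (G \ Λ) z) with hP₂
  have hP₂X : P₂ ⊆ X := sdiff_subset.trans hX'X
  have hins : insert z (P₁ ∪ Down R (G \ Λ) z) ⊆ X \ Λ := by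
    intro u hu
    rcases mem_insert.1 hu with rfl | hu
    · exact hG'X' hz
    rcases mem_union.1 hu with hu | hu
    · exact nI_sub (hP₁ hu)
    · exact nI_sub (hDn hu)
  have hcX : (X \ Λ).card + Λ.card = X.card := card_sdiff_add_card_eq_card (hΛG.trans hGX)
  have hcP : P₂.card + (insert z (P₁ ∪ Down R (G \ Λ) z)).card = (X \ Λ).card := card_sdiff_add_card_eq_card hins
  have hci1 : (insert z (P₁ ∪ Down R (G \ Λ) z)).card ≤ p + 2 * c + 1 := (card_insert_le _ _).trans (by omega)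
  have hci2 : p + 1 ≤ (insert z (P₁ ∪ Down R (G \ Λ) z)).card := by
    rw [← hP₁c, ← card_insert_of_notMem hzP₁]
    exact card_le_card (insert_subset_insert _ subset_union_left)
  have hnO : ∀ w ∈ nO R (G \ Λ) z, w ∈ P₂ := by
    intro w hw
    rw [mem_nO] at hw
    rw [hP₂, mem_sdiff]
    refine ⟨hG'X' hw.1, fun h => ?_⟩
    rcases mem_insert.1 h with rfl | h
    · exact hT.irr _ hw.2
    rcases mem_union.1 h with h | h
    · exact hT.asym _ _ hw.2 (hP₁z w h)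
    · exact hT.asym _ _ hw.2 (mem_Down.1 h).2.1
  have hrea : ∀ w ∈ G, Rea R X P₂ (κ₀ ^ 2 / 4 * X.card) (2 * η * X.card) w := by
    intro w hw
    refine Good.rea (hGd w hw) hP₂X ?_
    have : 0 ≤ η * X.card := by positivity
    linarith
  have hstrong : ∀ w ∈ G \ Λ, c ≤ (X.filter (fun v => R v w ∧ Rea R X P₂ (κ₀ ^ 2 / 4 * X.card) (2 * η * X.card) v)).card := by
    intro w hw
    have h1 : c ≤ (nI R G w).card := by
      by_contra hc
      push Not at hc
      rw [mem_sdiff, hΛ, mem_filter] at hw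
      exact hw.2 ⟨hw.1, hc⟩
    refine h1.trans (card_le_card ?_)
    intro v hv
    rw [mem_nI] at hv
    rw [mem_filter]
    exact ⟨hGX hv.1, hv.2, hrea v hv.1⟩
  have hmem : ∀ w ∈ nO R (G \ Λ) z, ∀ u, R w u → w ∈ Dm R X P₂ (κ₀ ^ 2 / 4 * X.card) (2 * η * X.card) c z u := by
    intro w hw u hwu
    have hw' := mem_nO.1 hw
    rw [mem_Dm]
    exact ⟨hnO w hw, hw'.2, hwu, hrea w (hG'G hw'.1), hstrong w hw'.1⟩
  have hpos : (0 : ℝ) ≤ η * (insert z P₁).card := by positivity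
  refine ⟨z, P₁, P₂, insert z P₁, hzX, hP₁X, hP₂X, insert_subset hzX hP₁X, mem_insert_self _ _, ?_, hP₁c, by omega,
    by omega, ?_, ⟨hP₂X, ?_, hrea z (hG'G hz), ?_, ?_⟩, ⟨⟨subset_insert _ _, hzP₁, ?_, ?_, ?_⟩, ?_⟩⟩
  · rw [disjoint_left]
    intro u hu hu'
    rw [hP₂, mem_sdiff] at hu'
    exact hu'.2 (mem_insert_of_mem (mem_union_left _ hu))
  · have := card_insert_le z P₁
    omega
  · intro h
    rw [hP₂, mem_sdiff] at h
    exact h.2 (mem_insert_self _ _)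
  · have h1 : m ≤ (P₂.filter (fun w => R z w ∧ Rea R X P₂ (κ₀ ^ 2 / 4 * X.card) (2 * η * X.card) w)).card := by
      refine hzm.trans (card_le_card ?_)
      intro w hw
      rw [mem_filter]
      exact ⟨hnO w hw, (mem_nO.1 hw).2, hrea w (hG'G (mem_nO.1 hw).1)⟩
    have h2 : (P₂.card : ℝ) ≤ X.card := by exact_mod_cast card_le_card hP₂X
    have h3 : (m : ℝ) ≤ (P₂.filter (fun w => R z w ∧ Rea R X P₂ (κ₀ ^ 2 / 4 * X.card) (2 * η * X.card) w)).card := by
      exact_mod_cast h1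
    have h4 := mul_le_mul_of_nonneg_left h2 h0.le
    linarith
  · intro u hu huz
    rw [hP₂, mem_sdiff, mem_sdiff] at hu
    by_cases huG : u ∈ G
    · have hu1 : u ∈ G \ Λ := mem_sdiff.2 ⟨huG, hu.1.2⟩
      have hu2 : u ∉ Down R (G \ Λ) z := fun h => hu.2 (mem_insert_of_mem (mem_union_right _ h))
      obtain ⟨w, hw, hzw, hwu⟩ := exists_dom_of_notMem_Down hT hz hu1 huz hu2
      exact ⟨w, hmem w (mem_nO.2 ⟨hw, hzw⟩) u hwu⟩
    · have h1 := hGf u hu.1.1 huG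
      have h2 : ∃ w ∈ nO R (G \ Λ) z, w ∉ nO R G u := by
        by_contra hc
        push Not at hc
        have := card_le_card (show nO R (G \ Λ) z ⊆ nO R G u from hc)
        omega
      obtain ⟨w, hw, hw'⟩ := h2
      have hwG := hG'G (mem_nO.1 hw).1
      have hwu : R w u := by
        have hne : w ≠ u := fun e => huG (e ▸ hwG)
        rcases hT.tot w u hne with h | h
        · exact h
        · exact absurd (mem_nO.2 ⟨hwG, h⟩) hw'
      exact ⟨w, hmem w hw u hwu⟩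
  · refine ⟨nO (rv R) (insert z P₁) z, Rch.base, ?_⟩
    have h1 : P₁ \ nO (rv R) (insert z P₁) z = ∅ := by
      rw [sdiff_eq_empty_iff_subset]
      intro u hu
      exact mem_nO.2 ⟨mem_insert_of_mem hu, hP₁z u hu⟩
    rw [h1]
    simp only [card_empty, Nat.cast_zero]
    linarith
  · have hUc : (insert z P₁).card = p + 1 := by rw [card_insert_of_notMem hzP₁, hP₁c]
    have hκp : κ₀ * p ≤ κ₀ * (insert z P₁).card := by
      apply mul_le_mul_of_nonneg_left _ h0.le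
      rw [hUc]; push_cast; linarith
    have hc0 : (0 : ℝ) ≤ c := Nat.cast_nonneg _
    obtain ⟨G₁, hG₁, hG₁c, hG₁g, -⟩ := structure_lemma (rv_tour hT) (insert z P₁) (η := η) (κ₀ := κ₀) h0
      (by linarith) (by linarith) (by linarith)
    have h1 : G₁ ⊆ insert z (P₁.filter (fun w => rv R z w ∧ Rea (rv R) (insert z P₁) P₁
        (κ₀ ^ 2 / 4 * (insert z P₁).card) (2 * η * (insert z P₁).card) w)) := by
      intro w hw
      rcases mem_insert.1 (hG₁ hw) with rfl | h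
      · exact mem_insert_self _ _
      · apply mem_insert_of_mem
        rw [mem_filter]
        exact ⟨h, hP₁z w h, Good.rea (hG₁g w hw) (subset_insert _ _) (by linarith)⟩
    have h2 : (G₁.card : ℝ) ≤ (P₁.filter (fun w => rv R z w ∧ Rea (rv R) (insert z P₁) P₁
        (κ₀ ^ 2 / 4 * (insert z P₁).card) (2 * η * (insert z P₁).card) w)).card + 1 := by
      exact_mod_cast (card_le_card h1).trans (card_insert_le _ _)
    have h3 : (20 * κ₀ - 5 * κ₀) * (insert z P₁).card ≤ (η - 5 * κ₀) * (insert z P₁).card := by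
      apply mul_le_mul_of_nonneg_right (by linarith) (Nat.cast_nonneg _)
    rw [hP₁c]
    linarith
  · intro u hu huz
    exact absurd (hP₁z u hu) (fun h => hT.asym _ _ h huz)
  · intro j _
    rw [filter_false_of_mem]
    · simp
    · rintro u hu ⟨h, _⟩
      exact hT.asym _ _ h (hP₁z u hu)

end AECut
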