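import Pool.Agent.AECut.CutS

/-!
# The two-sided cut: one part is small, second case
-/

namespace AECut

open Finset AE15 SPD
open scoped Classical

variable {V : Type*} {R : V → V → Prop}

/-- every vertex of the good set with large in-degree has many vertices of small in-degree below it -/
theorem cut_small_two (hT : AE32.Tour R) {X G : Finset V} {p c m : ℕ} {κ₀ η : ℝ} (h0 : 0 < κ₀) (hη : 20 * κ₀ ≤ η)
    (hη1 : η ≤ 1 / 8) (hp : 8 + 4 * c ≤ κ₀ * p) (hGX : G ⊆ X)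
    (hGd : ∀ g ∈ G, Good R (κ₀ ^ 2 / 4) η X g) (hGf : ∀ u ∈ X, u ∉ G → (nO R G u).card < m)
    (hm : κ₀ * X.card ≤ m) {Λ G₀ : Finset V} (hΛ : Λ = G.filter (fun w => (nI R G w).card < c))
    (hG₀ : G₀ = (G \ Λ).filter (fun z => (nI R (X \ Λ) z).card < p + 2 * c))
    (hG₀c : p + 2 * c + 1 ≤ G₀.card) (hbig : 2 * p + 6 * c + 2 + m ≤ G.card)
    (hD : ∀ z ∈ G \ Λ, p + 2 * c ≤ (nI R (X \ Λ) z).card → m ≤ (nO R (G \ Λ) z).card →
      p + 2 * c < ((Down R (G \ Λ) z).filter (fun u => (nI R (X \ Λ) u).card < p + 2 * c)).card) :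
    CutC R X p c κ₀ η := by
  have hη0 : 0 < η := by linarith
  have hc0 : (0 : ℝ) ≤ c := Nat.cast_nonneg _
  have hΛG : Λ ⊆ G := by rw [hΛ]; exact filter_subset _ _
  have hΛc : Λ.card ≤ 2 * c := by rw [hΛ]; exact card_lowin hT c G
  have hX'X : X \ Λ ⊆ X := sdiff_subset
  have hG'G : G \ Λ ⊆ G := sdiff_subset
  have hG'X' : G \ Λ ⊆ X \ Λ := sdiff_subset_sdiff hGX (Subset.refl _)
  have hG₀G' : G₀ ⊆ G \ Λ := by rw [hG₀]; exact filter_subset _ _
  have hG₀n : ∀ z ∈ G₀, (nI R (X \ Λ) z).card < p + 2 * c := by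
    intro z hz
    rw [hG₀, mem_filter] at hz
    exact hz.2
  have hG₀u : G₀.card ≤ 2 * (p + 2 * c) := by
    refine le_trans (card_le_card ?_) (card_lowin hT (p + 2 * c) G₀)
    intro z hz
    rw [mem_filter]
    exact ⟨hz, (card_le_card (nI_mono (hG₀G'.trans hG'X'))).trans_lt (hG₀n z hz)⟩
  have hm0 : (p : ℝ) + 2 * c + 1 ≤ G₀.card := by exact_mod_cast hG₀c
  have hm1 : (G₀.card : ℝ) ≤ 2 * (p + 2 * c) := by exact_mod_cast hG₀u
  have hκp : κ₀ * p ≤ κ₀ * G₀.card := mul_le_mul_of_nonneg_left (by linarith) h0.le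
  have hn8 : 8 ≤ κ₀ * G₀.card := by linarith
  have hκn : 0 ≤ κ₀ * G₀.card := by linarith
  have hpc : 4 * (c : ℝ) ≤ p := by
    have : κ₀ * p ≤ 1 * p := mul_le_mul_of_nonneg_right (by linarith) (Nat.cast_nonneg _)
    linarith
  have hηn : 20 * (κ₀ * G₀.card) ≤ η * G₀.card := by
    have : (0 : ℝ) ≤ G₀.card := Nat.cast_nonneg _
    nlinarith
  have hηp : η * G₀.card ≤ p := by
    have : η * G₀.card ≤ 1 / 8 * G₀.card := mul_le_mul_of_nonneg_right hη1 (Nat.cast_nonneg _)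
    linarith
  have hκ2 : κ₀ ^ 2 / 2 * G₀.card ≤ κ₀ * G₀.card := by
    have : (0 : ℝ) ≤ G₀.card := Nat.cast_nonneg _
    have h2 : κ₀ ^ 2 / 2 ≤ κ₀ := by nlinarith
    exact mul_le_mul_of_nonneg_right h2 this
  obtain ⟨O₀, hO₀, hO₀c, hO₀s, hO₀cl⟩ := struct_size (tour_rev hT) G₀ (κ₀ := κ₀)
    (s := G₀.card - p + η * G₀.card) h0 (by linarith) (by linarith) (by linarith)
  set GO := base (rv R) κ₀ G₀ O₀ with hGO
  have hGOX : GO ⊆ G₀ := base_sub.trans hO₀
  have hEm : ((G₀ \ GO).card : ℝ) + O₀.card ≤ G₀.card + 4 * κ₀ * G₀.card + 1 :=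
    card_sdiff_base (tour_rev hT) h0.le hO₀
  set W := GO.filter (fun w => (nI (rv R) GO w).card < c) with hW
  have hWc : W.card ≤ 2 * c := card_lowin (rv_tour hT) c GO
  set Z := GO \ W with hZ
  have hWsub : W ⊆ GO := filter_subset _ _
  have hpartO : GO = Z ∪ (∅ ∪ W) := by
    rw [empty_union, hZ, sdiff_union_of_subset hWsub]
  have hcard : Z.card + W.card + (G₀ \ GO).card = G₀.card := by
    have h2 : Z.card + W.card = GO.card := card_sdiff_add_card_eq_card hWsub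
    have h3 := card_sdiff_add_card_eq_card hGOX
    omega
  have hW4 : (W.card : ℝ) ≤ 2 * c := by exact_mod_cast hWc
  have hz1 : ((G₀ \ GO).card : ℝ) + (η * G₀.card - 4 * κ₀ * G₀.card - 1) ≤ p := by linarith
  have hz1' : (G₀ \ GO).card ≤ p := by
    have : ((G₀ \ GO).card : ℝ) ≤ p := by linarith
    exact_mod_cast this
  obtain ⟨Z₁, Z₂, y, hcut, hc1, hc2⟩ := exists_cut hT Z (p - (G₀ \ GO).card)
    (G₀.card - (p + 1 + W.card)) (by omega)
  have hyZ : y ∈ Z := by rw [hcut.hZ]; exact mem_insert_self _ _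
  have hZ1 : Z₁ ⊆ Z := by rw [hcut.hZ]; exact subset_union_left.trans (subset_insert _ _)
  have hZ2 : Z₂ ⊆ Z := by rw [hcut.hZ]; exact subset_union_right.trans (subset_insert _ _)
  have hZO : Z ⊆ GO := sdiff_subset
  have hZG₀ : Z ⊆ G₀ := hZO.trans hGOX
  have hyG₀ : y ∈ G₀ := hZG₀ hyZ
  have hD1 : CutData (rv R) κ₀ (G₀.card - p + η * G₀.card) c G₀ O₀ ∅ W Z Z₂ Z₁ y := by
    refine ⟨hcut.rev, hO₀, hO₀s, hO₀cl, hpartO, ?_, ?_⟩
    · intro a ha
      simp at ha
    · intro w hw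
      have hw' := hZ1 hw
      rw [hZ, mem_sdiff] at hw'
      by_contra hc
      push Not at hc
      exact hw'.2 (mem_filter.2 ⟨hw'.1, hc⟩)
  set P₁ := Z₁ ∪ (G₀ \ GO) with hP₁
  have hP1 : P₁.card = Z₁.card + (G₀ \ GO).card := by
    apply card_union_of_disjoint
    rw [disjoint_left]
    intro u hu hu'
    exact (mem_sdiff.1 hu').2 (hZO (hZ1 hu))
  have hP₁c : P₁.card = p := by omega
  have hP₁G₀ : P₁ ⊆ G₀ := union_subset (hZ1.trans hZG₀) sdiff_subset
  have hyP₁ : y ∉ P₁ := by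
    rw [hP₁, mem_union, mem_sdiff, not_or]
    exact ⟨hcut.h1, fun h => h.2 (hZO hyZ)⟩
  have hyW : y ∉ W := (mem_sdiff.1 hyZ).2
  -- the second part
  set P₂ := (X \ Λ) \ insert y (P₁ ∪ W) with hP₂
  have hP₂X : P₂ ⊆ X := sdiff_subset.trans hX'X
  have hG₀X' : G₀ ⊆ X \ Λ := hG₀G'.trans hG'X'
  have hins : insert y (P₁ ∪ W) ⊆ X \ Λ := by
    intro u hu
    rcases mem_insert.1 hu with rfl | hu
    · exact hG₀X' hyG₀
    rcases mem_union.1 hu with hu | hu
    · exact hG₀X' (hP₁G₀ hu)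
    · exact hG₀X' (hGOX (hWsub hu))
  have hPW : (P₁ ∪ W).card = p + W.card := by
    rw [card_union_of_disjoint, hP₁c]
    rw [disjoint_left]
    intro u hu hu'
    rw [hP₁, mem_union, mem_sdiff] at hu
    rcases hu with hu | hu
    · exact (mem_sdiff.1 (hZ1 hu)).2 hu'
    · exact hu.2 (hWsub hu')
  have hcX : (X \ Λ).card + Λ.card = X.card := card_sdiff_add_card_eq_card (hΛG.trans hGX)
  have hcP : P₂.card + (insert y (P₁ ∪ W)).card = (X \ Λ).card := card_sdiff_add_card_eq_card hins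
  have hci : (insert y (P₁ ∪ W)).card = p + W.card + 1 := by
    rw [card_insert_of_notMem, hPW]
    rw [mem_union, not_or]
    exact ⟨hyP₁, hyW⟩
  have hrea : ∀ w ∈ G, Rea R X P₂ (κ₀ ^ 2 / 4 * X.card) (2 * η * X.card) w := by
    intro w hw
    refine Good.rea (hGd w hw) hP₂X ?_
    have : 0 ≤ η * X.card := mul_nonneg hη0.le (Nat.cast_nonneg _)
    linarith only [this]
  have hstrong : ∀ w ∈ G \ Λ, c ≤ (X.filter (fun v => R v w ∧ Rea R X P₂ (κ₀ ^ 2 / 4 * X.card) (2 * η * X.card) v)).card := by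
    intro w hw
    have h1 : c ≤ (nI R G w).card := by
      by_contra hc
      push Not at hc
      rw [mem_sdiff, hΛ, mem_filter] at hw
      exact hw.2 ⟨hw.1, hc⟩
    refine h1.trans (card_le_card ?_)
    intro v hv
    rw [mem_nI] at hv
    rw [mem_filter]
    exact ⟨hGX hv.1, hv.2, hrea v hv.1⟩
  have hmem : ∀ w ∈ P₂, w ∈ G \ Λ → R y w → ∀ u, R w u →
      w ∈ Dm R X P₂ (κ₀ ^ 2 / 4 * X.card) (2 * η * X.card) c y u := by
    intro w hw hwG hyw u hwu
    rw [mem_Dm]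
    exact ⟨hw, hyw, hwu, hrea w (hG'G hwG), hstrong w hwG⟩
  have hZ2P : ∀ w ∈ Z₂, w ∈ P₂ := by
    intro w hw
    rw [hP₂, mem_sdiff]
    refine ⟨hG₀X' (hZG₀ (hZ2 hw)), fun h => ?_⟩
    rcases mem_insert.1 h with rfl | h
    · exact hcut.h2 hw
    rcases mem_union.1 h with h | h
    · rw [hP₁, mem_union, mem_sdiff] at h
      rcases h with h | h
      · exact (disjoint_left.1 hcut.hd) h hw
      · exact h.2 (hZO (hZ2 hw))
    · exact (mem_sdiff.1 (hZ2 hw)).2 h
  -- the out-neighbours of `y` in the second part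
  have hL : m + 1 ≤ ((nO R (G \ Λ) y) \ (P₁ ∪ W)).card := by
    have h1 := card_nO_add_nI' hT (hG₀G' hyG₀)
    have h2 : (nI R (G \ Λ) y).card < p + 2 * c := (card_le_card (nI_mono hG'X')).trans_lt (hG₀n y hyG₀)
    have h3 := le_card_sdiff (P₁ ∪ W) (nO R (G \ Λ) y)
    have h4 := le_card_sdiff Λ G
    omega
  have hL2 : ∀ w ∈ (nO R (G \ Λ) y) \ (P₁ ∪ W), w ∈ P₂ ∧ w ∈ G \ Λ ∧ R y w := by
    intro w hw
    rw [mem_sdiff, mem_nO] at hw
    refine ⟨?_, hw.1⟩
    rw [hP₂, mem_sdiff]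
    refine ⟨hG'X' hw.1.1, fun h => ?_⟩
    rcases mem_insert.1 h with rfl | h
    · exact hT.irr _ hw.1.2
    · exact hw.2 h
  have hfew : ∀ u, ∀ A : Finset V, A ⊆ G → (∀ w ∈ (nO R (G \ Λ) y) \ (P₁ ∪ W), w ≠ u → R u w → w ∈ A) →
      A.card < m → ∃ w ∈ P₂, w ∈ G \ Λ ∧ R y w ∧ R w u := by
    intro u A _ hA2 hA3
    have h2 : ∃ w ∈ ((nO R (G \ Λ) y) \ (P₁ ∪ W)), w ∉ insert u A := by
      by_contra hc
      push Not at hc
      have h3 := card_le_card (show (nO R (G \ Λ) y) \ (P₁ ∪ W) ⊆ insert u A from hc)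
      have h4 := card_insert_le u A
      omega
    obtain ⟨w, hw, hw'⟩ := h2
    rw [mem_insert, not_or] at hw'
    obtain ⟨h3, h4, h5⟩ := hL2 w hw
    refine ⟨w, h3, h4, h5, ?_⟩
    rcases hT.tot w u hw'.1 with h | h
    · exact h
    · exact absurd (hA2 w hw hw'.1 h) hw'.2
  refine ⟨y, P₁, P₂, G₀, hG₀X'.trans hX'X hyG₀, hP₁G₀.trans (hG₀X'.trans hX'X), hP₂X, hG₀X'.trans hX'X, hyG₀, ?_,
    hP₁c, by omega, by omega, by omega, ⟨hP₂X, ?_, hrea y (hG'G (hG₀G' hyG₀)), ?_, ?_⟩, ?_⟩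
  · rw [disjoint_left]
    intro u hu hu'
    rw [hP₂, mem_sdiff] at hu'
    exact hu'.2 (mem_insert_of_mem (mem_union_left _ hu))
  · intro h
    rw [hP₂, mem_sdiff] at h
    exact h.2 (mem_insert_self _ _)
  · have h1 : m ≤ (P₂.filter (fun w => R y w ∧ Rea R X P₂ (κ₀ ^ 2 / 4 * X.card) (2 * η * X.card) w)).card := by
      refine (Nat.le_of_succ_le hL).trans (card_le_card ?_)
      intro w hw
      obtain ⟨h3, h4, h5⟩ := hL2 w hw
      rw [mem_filter]
      exact ⟨h3, h5, hrea w (hG'G h4)⟩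
    have h2 : (P₂.card : ℝ) ≤ X.card := by exact_mod_cast card_le_card hP₂X
    have h3 : (m : ℝ) ≤ (P₂.filter (fun w => R y w ∧ Rea R X P₂ (κ₀ ^ 2 / 4 * X.card) (2 * η * X.card) w)).card := by
      exact_mod_cast h1
    have h4 := mul_le_mul_of_nonneg_left h2 h0.le
    linarith only [h3, h4, hm]
  · intro u hu huy
    have hu' := hu
    rw [hP₂, mem_sdiff, mem_sdiff, mem_insert, mem_union, not_or, not_or] at hu'
    obtain ⟨⟨huX, huΛ⟩, huy', huP₁, huW⟩ := hu'
    by_cases huG : u ∈ G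
    · have hu1 : u ∈ G \ Λ := mem_sdiff.2 ⟨huG, huΛ⟩
      by_cases hB : p + 2 * c ≤ (nI R (X \ Λ) u).card
      · by_cases hmu : m ≤ (nO R (G \ Λ) u).card
        · have h1 := hD u hu1 hB hmu
          obtain ⟨v, hv, hv'⟩ : ∃ v ∈ (Down R (G \ Λ) u).filter (fun u => (nI R (X \ Λ) u).card < p + 2 * c),
              v ∉ P₁ ∪ W := by
            by_contra hc
            push Not at hc
            have := card_le_card (show (Down R (G \ Λ) u).filter (fun u => (nI R (X \ Λ) u).card < p + 2 * c) ⊆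
              P₁ ∪ W from hc)
            omega
          rw [mem_filter, mem_Down] at hv
          obtain ⟨⟨hvG, hvu, hvn⟩, hvB⟩ := hv
          have hvG₀ : v ∈ G₀ := by rw [hG₀]; exact mem_filter.2 ⟨hvG, hvB⟩
          have hvy : v ≠ y := by
            rintro rfl
            exact hT.asym _ _ hvu huy
          rw [mem_union, not_or] at hv'
          have hvZ₂ : v ∈ Z₂ := by
            have hvGO : v ∈ GO := by
              by_contra hc
              exact hv'.1 (mem_union_right _ (mem_sdiff.2 ⟨hvG₀, hc⟩))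
            have hvZ : v ∈ Z := mem_sdiff.2 ⟨hvGO, hv'.2⟩
            rw [hcut.hZ, mem_insert, mem_union] at hvZ
            rcases hvZ with h | h | h
            · exact absurd h hvy
            · exact absurd (mem_union_left _ h) hv'.1
            · exact h
          rcases hT.tot y v (Ne.symm hvy) with h | h
          · exact ⟨v, hmem v (hZ2P v hvZ₂) hvG h u hvu⟩
          · have h2 := hcut.dom_out hT v hvZ₂ h
            obtain ⟨w, hw⟩ := card_pos.1 (show 0 < (nI R (nO R Z₂ y) v).card by omega)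
            rw [mem_nI, mem_nO] at hw
            have hwG : w ∈ G \ Λ := hG₀G' (hZG₀ (hZ2 hw.1.1))
            have hwu : R w u := (mem_nI.1 (hvn (mem_nI.2 ⟨hwG, hw.2⟩))).2
            exact ⟨w, hmem w (hZ2P w hw.1.1) hwG hw.1.2 u hwu⟩
        · push Not at hmu
          obtain ⟨w, h1, h2, h3, h4⟩ := hfew u (nO R (G \ Λ) u) (nO_sub.trans hG'G)
            (fun w hw _ huw => mem_nO.2 ⟨(hL2 w hw).2.1, huw⟩) hmu
          exact ⟨w, hmem w h1 h2 h3 u h4⟩
      · have huG₀ : u ∈ G₀ := by rw [hG₀]; exact mem_filter.2 ⟨hu1, by omega⟩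
        have huZ₂ : u ∈ Z₂ := by
          have huGO : u ∈ GO := by
            by_contra hc
            exact huP₁ (mem_union_right _ (mem_sdiff.2 ⟨huG₀, hc⟩))
          have huZ : u ∈ Z := mem_sdiff.2 ⟨huGO, huW⟩
          rw [hcut.hZ, mem_insert, mem_union] at huZ
          rcases huZ with h | h | h
          · exact absurd h huy'
          · exact absurd (mem_union_left _ h) huP₁
          · exact h
        have h2 := hcut.dom_out hT u huZ₂ huy
        obtain ⟨w, hw⟩ := card_pos.1 (show 0 < (nI R (nO R Z₂ y) u).card by omega)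
        rw [mem_nI, mem_nO] at hw
        exact ⟨w, hmem w (hZ2P w hw.1.1) (hG₀G' (hZG₀ (hZ2 hw.1.1))) hw.1.2 u hw.2⟩
    · obtain ⟨w, h1, h2, h3, h4⟩ := hfew u (nO R G u) nO_sub
        (fun w hw _ huw => mem_nO.2 ⟨hG'G (hL2 w hw).2.1, huw⟩) (hGf u huX huG)
      exact ⟨w, hmem w h1 h2 h3 u h4⟩
  · -- the small side
    have hP1r : (P₁.card : ℝ) = p := by exact_mod_cast hP₁c
    have hZ1r : (Z₁.card : ℝ) + (G₀ \ GO).card = p := by exact_mod_cast (by omega : Z₁.card + (G₀ \ GO).card = p)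
    have hZ1l : 3 / 4 * (η * G₀.card) ≤ (Z₁.card : ℝ) := by linarith only [hZ1r, hz1, hηn, hn8]
    have hPl : (P₁.card : ℝ) ≤ G₀.card := by exact_mod_cast card_le_card hP₁G₀
    have hηP := mul_le_mul_of_nonneg_left hPl hη0.le
    have hκP := mul_le_mul_of_nonneg_left hPl h0.le
    have hηX : 0 ≤ η * G₀.card := by linarith only [hηn, hκn]
    refine hD1.sideC (rv_tour hT) h0 (by linarith only [hη, hη1]) hn8 (by linarith only [hηn, hn8]) ?_
      (by linarith only [hη0]) ?_ ?_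
    · rw [← hGO, ← hP₁]
      linarith only [hP1r, hηn, hκ2, hn8, hκn, hW4, hp, hκp, hc0]
    · rw [← hGO, ← hP₁]
      linarith only [hκP, hZ1l, hηn, hκn]
    · rw [← hGO, ← hP₁]
      linarith only [hηP, hZ1l, hηX, hηn, hn8]

/-- **The cut lemma, one part small** -/
theorem cut_small (hT : AE32.Tour R) {X : Finset V} {p c : ℕ} {κ₀ η : ℝ} (h0 : 0 < κ₀) (hη : 20 * κ₀ ≤ η)
    (hη1 : η ≤ 1 / 8) (hp : 8 + 4 * c ≤ κ₀ * p) (hpX : (p : ℝ) ≤ κ₀ * X.card) : CutC R X p c κ₀ η := by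
  have hc0 : (0 : ℝ) ≤ c := Nat.cast_nonneg _
  have hη0 : 0 < η := by linarith
  have hp1 : κ₀ * p ≤ 1 * p := mul_le_mul_of_nonneg_right (by linarith) (Nat.cast_nonneg _)
  have hn8 : 8 + 4 * (c : ℝ) ≤ κ₀ * X.card := by linarith
  obtain ⟨G, hGX, hGc, hGd, hGf⟩ := structure_lemma hT X (η := η) (κ₀ := κ₀) h0 (by linarith) (by linarith)
    (by linarith)
  set Λ := G.filter (fun w => (nI R G w).card < c) with hΛ
  have hΛG : Λ ⊆ G := filter_subset _ _
  have hΛc : Λ.card ≤ 2 * c := card_lowin hT c G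
  have hηn : 20 * (κ₀ * X.card) ≤ η * X.card := by
    have : (0 : ℝ) ≤ X.card := Nat.cast_nonneg _
    nlinarith
  obtain ⟨m, hm⟩ : ∃ m : ℕ, m = ⌈2 * κ₀ * X.card⌉₊ := ⟨_, rfl⟩
  have hm1 : 2 * κ₀ * X.card ≤ m := by rw [hm]; exact Nat.le_ceil _
  have hm2 : (m : ℝ) < 2 * κ₀ * X.card + 1 := by
    rw [hm]
    apply Nat.ceil_lt_add_one
    positivity
  have hGf' : ∀ u ∈ X, u ∉ G → (nO R G u).card < m := by
    intro u hu hu'
    have h1 := hGf u hu hu'
    have h2 : ((nO R G u).card : ℝ) < m := by linarith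
    exact_mod_cast h2
  have hmX : κ₀ * X.card ≤ m := by
    have : 0 ≤ κ₀ * X.card := by positivity
    linarith
  by_cases hS : ∃ z ∈ G \ Λ, p + 2 * c ≤ (nI R (X \ Λ) z).card ∧ m ≤ (nO R (G \ Λ) z).card ∧
      (Down R (G \ Λ) z).card ≤ p + 2 * c
  · obtain ⟨z, hz, h1, h2, h3⟩ := hS
    exact cut_small_one hT h0 hη hη1 hp hGX hGd hGf' hmX hΛ hz h1 h2 h3
  · push Not at hS
    have hD := Down_small hT (R := R) (G := G \ Λ) (S := fun z => (nI R (X \ Λ) z).card < p + 2 * c) (m := m)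
      (q := p + 2 * c) (fun z hz h1 h2 => hS z hz (by omega) h2)
    have hD' : ∀ z ∈ G \ Λ, p + 2 * c ≤ (nI R (X \ Λ) z).card → m ≤ (nO R (G \ Λ) z).card →
        p + 2 * c < ((Down R (G \ Λ) z).filter (fun u => (nI R (X \ Λ) u).card < p + 2 * c)).card := by
      intro z hz h1 h2
      convert hD z hz (by omega) h2
    clear hD
    have hbig : 15 * (κ₀ * X.card) ≤ G.card := by linarith
    have hbig' : 2 * p + 6 * c + 2 + (2 * m + 2) ≤ G.card := by
      have : (2 : ℝ) * p + 6 * c + 2 + (2 * m + 2) ≤ G.card := by linarith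
      exact_mod_cast this
    refine cut_small_two hT h0 hη hη1 hp hGX hGd hGf' hmX hΛ rfl ?_ (by omega) hD'
    -- existence of a vertex of large in- and out-degree
    by_contra hc
    push Not at hc
    have h1 : ∃ z ∈ G \ Λ, z ∉ (G \ Λ).filter (fun z => (nI R (X \ Λ) z).card < p + 2 * c) ∪
        (G \ Λ).filter (fun z => (nO R (G \ Λ) z).card ≤ m) := by
      by_contra hc'
      push Not at hc'
      have h2 := card_le_card (show G \ Λ ⊆ (G \ Λ).filter (fun z => (nI R (X \ Λ) z).card < p + 2 * c) ∪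
        (G \ Λ).filter (fun z => (nO R (G \ Λ) z).card ≤ m) from hc')
      have h3 := card_union_le ((G \ Λ).filter (fun z => (nI R (X \ Λ) z).card < p + 2 * c))
        ((G \ Λ).filter (fun z => (nO R (G \ Λ) z).card ≤ m))
      have h4 := card_low hT (G \ Λ) m
      have h5 := le_card_sdiff Λ G
      omega
    obtain ⟨z, hz, hz'⟩ := h1
    rw [mem_union, not_or, mem_filter, mem_filter, not_and, not_and] at hz'
    have h2 := hz'.1 hz
    have h3 := hz'.2 hz
    have h4 := hD' z hz (by omega) (by omega)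
    have h5 := card_le_card (filter_subset_filter (fun u => (nI R (X \ Λ) u).card < p + 2 * c)
      (Down_sub : Down R (G \ Λ) z ⊆ G \ Λ))
    omega

end AECut
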