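import Pool.Agent.AECut.Cut
import Pool.Agent.AEB.ClU
import Pool.Agent.AEB.Defs

/-!
# The sides of a cut belong to the ambient classes
-/

namespace AECut

open Finset AE15 SPD AED AEB
open scoped Classical

variable {V : Type*} {R : V → V → Prop}

/-- a robustly reached set is contained in every closed set containing the out-neighbours, even if a few vertices have
been removed -/
theorem rch_sub {U C E W : Finset V} {k : ℝ} {κ' : ℝ} {v : V} (h : Rch R U k v W) (hC : nO R (U \ E) v ⊆ C)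
    (hcl : Closed R κ' (U \ E) C) (hk : κ' * (U \ E).card + E.card ≤ k) : W ⊆ C ∪ E := by
  induction h with
  | base =>
    intro u hu
    rw [mem_nO] at hu
    by_cases huE : u ∈ E
    · exact mem_union_right _ huE
    · exact mem_union_left _ (hC (mem_nO.2 ⟨mem_sdiff.2 ⟨hu.1, huE⟩, hu.2⟩))
  | step W z _ hz hzW hc ih =>
    intro u hu
    rcases mem_insert.1 hu with rfl | hu
    · by_contra hcon
      rw [mem_union, not_or] at hcon
      have h1 := hcl u (mem_sdiff.2 ⟨hz, hcon.2⟩) hcon.1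
      have h2 : nI R W u ⊆ nI R C u ∪ E := by
        intro w hw
        rw [mem_nI] at hw
        rcases mem_union.1 (ih hw.1) with h | h
        · exact mem_union_left _ (mem_nI.2 ⟨h, hw.2⟩)
        · exact mem_union_right _ h
      have h3 : ((nI R W u).card : ℝ) ≤ (nI R C u).card + E.card := by
        exact_mod_cast (card_le_card h2).trans (card_union_le _ _)
      linarith
    · exact ih hu

/-- vertices reaching robustly almost all of `P` are good, even if a few vertices have been removed -/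
theorem gdU_of_rea' {κ κ' η t : ℝ} {U P E : Finset V} {v : V} (h : Rea R U P (κ * U.card) t v)
    (hκ : κ' * (U \ E).card + E.card ≤ κ * U.card) (ht : t ≤ η * (P \ E).card) : GdU R κ' η (U \ E) (P \ E) v := by
  intro C _ hC hcl
  obtain ⟨W, h1, h2⟩ := h
  have h3 := rch_sub h1 hC hcl hκ
  have h4 : (P \ E) \ C ⊆ P \ W := by
    intro u hu
    rw [mem_sdiff, mem_sdiff] at hu
    rw [mem_sdiff]
    refine ⟨hu.1.1, fun huW => ?_⟩
    rcases mem_union.1 (h3 huW) with h | h
    · exact hu.2 h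
    · exact hu.1.2 h
  have h5 : (((P \ E) \ C).card : ℝ) ≤ (P \ W).card := by exact_mod_cast card_le_card h4
  linarith

theorem gdU_of_rea {κ η t : ℝ} {U P : Finset V} {v : V} (h : Rea R U P (κ * U.card) t v)
    (ht : t ≤ η * P.card) : GdU R κ η U P v := by
  have := gdU_of_rea' (E := ∅) (κ' := κ) (η := η) h (by simp) (by simpa using ht)
  simpa using this

/-- **The second side of a cut belongs to the exact class** -/
theorem Side.clBU {κ β s : ℝ} {U P : Finset V} {c : ℕ} {y : V} {p : NP} {m : ℕ}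
    (h : Side R U P (κ * U.card) (β * P.card) s c y) (h0 : p.c0 ≤ c) (h1 : p.c ≤ c)
    (hT : AE32.Tour R) : ClBU R (GdU R κ β U P) s p m U P (R y) := by
  have hg : ∀ w, Rea R U P (κ * U.card) (β * P.card) w → GdU R κ β U P w := fun w hw => gdU_of_rea hw le_rfl
  have hlin : ClD (GdU R κ β U P) s P (R y) := by
    refine h.lin.trans ?_
    apply Nat.cast_le.2
    apply card_le_card
    intro w hw
    rw [mem_filter] at hw ⊢
    exact ⟨hw.1, hg w hw.2.2, hw.2.1⟩
  have hdom : ∀ u ∈ P, R y u ∨ ∃ v ∈ P, R y v ∧ R v u ∧ Strong R (GdU R κ β U P) p.c0 p.c U v := by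
    intro u hu
    by_cases hy : R y u
    · exact Or.inl hy
    · have hne : u ≠ y := fun e => h.notMem (e ▸ hu)
      obtain ⟨w, hw⟩ := h.dom u hu ((hT.tot u y hne).resolve_right hy)
      rw [mem_Dm] at hw
      refine Or.inr ⟨w, hw.1, hw.2.1, hw.2.2.1, ⟨hg w hw.2.2.2.1, ?_⟩, ?_⟩
      · refine (h0.trans hw.2.2.2.2).trans (card_le_card ?_)
        intro z hz
        rw [mem_filter] at hz
        exact mem_nI.2 ⟨hz.1, hz.2.1⟩
      · refine (h1.trans hw.2.2.2.2).trans (card_le_card ?_)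
        intro z hz
        rw [mem_filter] at hz
        exact mem_nI.2 ⟨mem_filter.2 ⟨hz.1, hg z hz.2.2⟩, hz.2.1⟩
  refine ⟨hlin, ∅, ∅, by simp, by simp, ?_, ?_⟩
  · intro u hu
    rcases hdom u hu with h | ⟨v, h2, h3, h4, h5⟩
    · exact Or.inl h
    · exact Or.inr (Or.inr (Or.inr ⟨v, h2, h3, h4, h5.1⟩))
  · intro u hu
    rcases hdom u hu with h | ⟨v, h2, h3, h4, h5⟩
    · exact Or.inl h
    · exact Or.inr (Or.inr (Or.inr (Or.inr ⟨v, h2, h3, h4, h5⟩)))

/-- **The first side of a cut belongs to the exact class, even after the removal of a few vertices** -/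
theorem SideC.clBU {κ β s τ : ℝ} {U P E : Finset V} {c e : ℕ} {y : V} {p : NP} {m : ℕ}
    (h : SideC R U P (κ * U.card) (β * P.card) s τ c y) (hT : AE32.Tour R) (hE : E.card ≤ e) (h0 : p.c0 + e ≤ c)
    (h1 : p.c + e ≤ c) (hm : 2 * e ≤ m) (hκ : 2 * (e : ℝ) ≤ κ * U.card) (hβ : 0 ≤ β) (hPe : 2 * e ≤ P.card)
    (hs : 2 * (e : ℝ) ≤ s * P.card) (hτ : (e : ℝ) ≤ τ * P.card) :
    ClBU R (GdU R (κ / 2) (2 * β) (U \ E) (P \ E)) (s / 2) p m (U \ E) (P \ E) (R y) ∧
      GdU R (κ / 2) (2 * β) (U \ E) (P \ E) y := by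
  have hEc : (E.card : ℝ) ≤ e := by exact_mod_cast hE
  have hU1 : ((U \ E).card : ℝ) ≤ U.card := by exact_mod_cast card_le_card sdiff_subset
  have he0 : (0 : ℝ) ≤ e := Nat.cast_nonneg _
  have hκ0 : 0 ≤ κ / 2 * U.card := by linarith
  have hκ1 : κ / 2 * (U \ E).card ≤ κ / 2 * U.card := by
    rcases le_or_gt 0 (κ / 2) with h2 | h2
    · exact mul_le_mul_of_nonneg_left hU1 h2
    · have : κ / 2 * (U \ E).card ≤ 0 := mul_nonpos_of_nonpos_of_nonneg h2.le (Nat.cast_nonneg _)
      linarith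
  have hP1 : P.card ≤ (P \ E).card + E.card := by
    have := le_card_sdiff E P
    omega
  have hP2 : (P.card : ℝ) ≤ (P \ E).card + E.card := by exact_mod_cast hP1
  have hP3 : (P.card : ℝ) ≤ 2 * (P \ E).card := by
    have : 2 * (e : ℝ) ≤ P.card := by exact_mod_cast hPe
    linarith
  have hg : ∀ w, Rea R U P (κ * U.card) (β * P.card) w → GdU R (κ / 2) (2 * β) (U \ E) (P \ E) w := by
    intro w hw
    refine gdU_of_rea' hw (by linarith) ?_
    have := mul_le_mul_of_nonneg_left hP3 hβ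
    linarith
  have hlin : ClD (GdU R (κ / 2) (2 * β) (U \ E) (P \ E)) (s / 2) (P \ E) (R y) := by
    have h2 : P.filter (fun w => R y w ∧ Rea R U P (κ * U.card) (β * P.card) w) ⊆
        ((P \ E).filter (fun v => GdU R (κ / 2) (2 * β) (U \ E) (P \ E) v ∧ R y v)) ∪ E := by
      intro w hw
      rw [mem_filter] at hw
      by_cases hwE : w ∈ E
      · exact mem_union_right _ hwE
      · exact mem_union_left _ (mem_filter.2 ⟨mem_sdiff.2 ⟨hw.1, hwE⟩, hg w hw.2.2, hw.2.1⟩)
    have h3 : ((P.filter (fun w => R y w ∧ Rea R U P (κ * U.card) (β * P.card) w)).card : ℝ) ≤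
        ((P \ E).filter (fun v => GdU R (κ / 2) (2 * β) (U \ E) (P \ E) v ∧ R y v)).card + E.card := by
      exact_mod_cast (card_le_card h2).trans (card_union_le _ _)
    have h4 := h.side.lin
    have h5 : s / 2 * (P \ E).card ≤ s / 2 * P.card := by
      rcases le_or_gt 0 (s / 2) with h6 | h6
      · exact mul_le_mul_of_nonneg_left (by exact_mod_cast card_le_card sdiff_subset) h6
      · have : s / 2 * (P \ E).card ≤ 0 := mul_nonpos_of_nonpos_of_nonneg h6.le (Nat.cast_nonneg _)
        linarith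
    unfold ClD
    linarith
  have hdom : ∀ u ∈ P \ E, R y u ∨ u ∈ P.filter (fun u => R u y ∧ (Dm R U P (κ * U.card) (β * P.card) c y u).card ≤ e) ∨
      ∃ v ∈ P \ E, R y v ∧ R v u ∧ Strong R (GdU R (κ / 2) (2 * β) (U \ E) (P \ E)) p.c0 p.c (U \ E) v := by
    intro u hu
    rw [mem_sdiff] at hu
    by_cases hy : R y u
    · exact Or.inl hy
    · have hne : u ≠ y := fun e => h.side.notMem (e ▸ hu.1)
      have huy := (hT.tot u y hne).resolve_right hy
      by_cases hd : (Dm R U P (κ * U.card) (β * P.card) c y u).card ≤ e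
      · exact Or.inr (Or.inl (mem_filter.2 ⟨hu.1, huy, hd⟩))
      · obtain ⟨w, hw, hwE⟩ : ∃ w ∈ Dm R U P (κ * U.card) (β * P.card) c y u, w ∉ E := by
          by_contra hc
          push Not at hc
          have := card_le_card (show Dm R U P (κ * U.card) (β * P.card) c y u ⊆ E from hc)
          omega
        rw [mem_Dm] at hw
        have key : c ≤ (nI R ((U \ E).filter (GdU R (κ / 2) (2 * β) (U \ E) (P \ E))) w).card + e := by
          refine hw.2.2.2.2.trans ?_
          have h2 : U.filter (fun z => R z w ∧ Rea R U P (κ * U.card) (β * P.card) z) ⊆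
              nI R ((U \ E).filter (GdU R (κ / 2) (2 * β) (U \ E) (P \ E))) w ∪ E := by
            intro z hz
            rw [mem_filter] at hz
            by_cases hzE : z ∈ E
            · exact mem_union_right _ hzE
            · exact mem_union_left _ (mem_nI.2 ⟨mem_filter.2 ⟨mem_sdiff.2 ⟨hz.1, hzE⟩, hg z hz.2.2⟩, hz.2.1⟩)
          have h3 := (card_le_card h2).trans (card_union_le _ _)
          omega
        have key2 := card_le_card (nI_mono (R := R) (v := w)
          (filter_subset (GdU R (κ / 2) (2 * β) (U \ E) (P \ E)) (U \ E)))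
        exact Or.inr (Or.inr ⟨w, mem_sdiff.2 ⟨hw.1, hwE⟩, hw.2.1, hw.2.2.1, ⟨hg w hw.2.2.2.1, by omega⟩, by omega⟩)
  refine ⟨⟨hlin, P.filter (fun u => R u y ∧ (Dm R U P (κ * U.card) (β * P.card) c y u).card ≤ e), ∅, ?_, by simp,
    ?_, ?_⟩, hg y h.side.reach⟩
  · exact (h.cnt e hτ).trans hm
  · intro u hu
    rcases hdom u hu with h | h | ⟨v, h2, h3, h4, h5⟩
    · exact Or.inl h
    · exact Or.inr (Or.inr (Or.inl h))
    · exact Or.inr (Or.inr (Or.inr ⟨v, h2, h3, h4, h5.1⟩))
  · intro u hu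
    rcases hdom u hu with h | h | ⟨v, h2, h3, h4, h5⟩
    · exact Or.inl h
    · exact Or.inr (Or.inr (Or.inl h))
    · exact Or.inr (Or.inr (Or.inr (Or.inr ⟨v, h2, h3, h4, h5⟩)))

end AECut
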