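import Pool.Agent.AE15.Super

/-!
# Cuts of a tournament with a maximal number of forward arcs
-/

namespace AECut

open Finset AE15
open scoped Classical

variable {V : Type*} {R : V → V → Prop}

/-- the reverse of a tournament -/
theorem tour_rev (hT : AE32.Tour R) : AE32.Tour (fun a b => R b a) :=
  ⟨hT.irr, fun a b h => (hT.tot a b h).symm, fun a b h => hT.asym b a h⟩

/-- the number of arcs from `A` to `B` -/
noncomputable def ar (R : V → V → Prop) (A B : Finset V) : ℕ := ∑ a ∈ A, (nO R B a).card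

theorem ar_eq (A B : Finset V) : ar R A B = ∑ b ∈ B, (nI R A b).card := sum_nO_eq_sum_nI A B

theorem ar_rev (A B : Finset V) : ar (fun a b => R b a) A B = ar R B A := by
  rw [ar_eq (R := R)]
  rfl

theorem ar_union_left {A A' : Finset V} (h : Disjoint A A') (B : Finset V) :
    ar R (A ∪ A') B = ar R A B + ar R A' B := sum_union h

theorem ar_union_right {B B' : Finset V} (h : Disjoint B B') (A : Finset V) :
    ar R A (B ∪ B') = ar R A B + ar R A B' := by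
  rw [ar_eq, ar_eq, ar_eq]
  exact sum_union h

theorem ar_singleton_left (y : V) (B : Finset V) : ar R {y} B = (nO R B y).card := by
  simp [ar]

theorem ar_singleton_right (A : Finset V) (y : V) : ar R A {y} = (nI R A y).card := by
  simp [ar_eq]

theorem ar_mono {A A' B B' : Finset V} (hA : A ⊆ A') (hB : B ⊆ B') : ar R A B ≤ ar R A' B' := by
  refine (sum_le_sum (fun a _ => card_le_card (nO_mono hB))).trans ?_
  exact sum_le_sum_of_subset hA

theorem ar_le (A B : Finset V) : ar R A B ≤ A.card * B.card := by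
  refine (sum_le_card_nsmul _ _ B.card (fun a _ => card_le_card nO_sub)).trans ?_
  rw [smul_eq_mul]

/-- arcs in both directions between disjoint sets -/
theorem ar_add_ar (hT : AE32.Tour R) {A B : Finset V} (h : Disjoint A B) :
    ar R A B + ar R B A = A.card * B.card := by
  rw [ar_eq (R := R) B A]
  unfold ar
  rw [← sum_add_distrib]
  have h1 : ∀ a ∈ A, (nO R B a).card + (nI R B a).card = B.card := fun a ha =>
    card_nO_add_nI hT (fun hb => (disjoint_left.1 h) ha hb)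
  rw [sum_congr rfl h1, sum_const, smul_eq_mul]

/-- a cut `Z = Z₁ ∪ {y} ∪ Z₂` which cannot be improved by swaps -/
structure IsCut (R : V → V → Prop) (Z Z₁ Z₂ : Finset V) (y : V) : Prop where
  h1 : y ∉ Z₁
  h2 : y ∉ Z₂
  hd : Disjoint Z₁ Z₂
  hZ : Z = insert y (Z₁ ∪ Z₂)
  out : ∀ u ∈ Z₂, (nO R (insert y Z₂) u).card ≤ (nO R Z₂ y).card
  inn : ∀ u ∈ Z₁, (nI R (insert y Z₁) u).card ≤ (nI R Z₁ y).card
  ex : ∀ S₁ ⊆ Z₁, ∀ S₂ ⊆ Z₂, S₁.card = S₂.card →
    ar R (Z₁ \ S₁) S₁ + ar R S₂ (Z₂ \ S₂) + ar R S₂ S₁ ≤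
      2 * S₁.card + (ar R (Z₁ \ S₁) S₂ + ar R S₁ (Z₂ \ S₂) + ar R S₁ S₂)

theorem IsCut.rev {Z Z₁ Z₂ : Finset V} {y : V} (h : IsCut R Z Z₁ Z₂ y) :
    IsCut (fun a b => R b a) Z Z₂ Z₁ y := by
  refine ⟨h.h2, h.h1, h.hd.symm, by rw [h.hZ, union_comm], h.inn, h.out, ?_⟩
  intro S₁ hS₁ S₂ hS₂ hc
  have h1 := h.ex S₂ hS₂ S₁ hS₁ hc.symm
  simp only [ar_rev]
  omega

/-- the weight of a triple -/
private noncomputable def wt (R : V → V → Prop) (Z₁ Z₂ : Finset V) (y : V) : ℕ :=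
  ar R Z₁ {y} + ar R {y} Z₂ + ar R Z₁ Z₂

private theorem cut_out {Z₁ Z₂ : Finset V} {y : V} (_h1 : y ∉ Z₁) (h2 : y ∉ Z₂) (_hd : Disjoint Z₁ Z₂)
    (hmax : ∀ u ∈ Z₂, wt R Z₁ (insert y (Z₂.erase u)) u ≤ wt R Z₁ Z₂ y) :
    ∀ u ∈ Z₂, (nO R (insert y Z₂) u).card ≤ (nO R Z₂ y).card + (if R u u then 1 else 0) := by
  intro u hu
  have huy : u ≠ y := fun e => h2 (e ▸ hu)
  have h3 := hmax u hu
  unfold wt at h3
  have h4 : ar R Z₁ {u} + ar R Z₁ (insert y (Z₂.erase u)) = ar R Z₁ {y} + ar R Z₁ Z₂ := by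
    rw [← ar_union_right, ← ar_union_right]
    · congr 1
      ext w
      simp only [mem_union, mem_singleton, mem_insert, mem_erase]
      constructor
      · rintro (rfl | rfl | ⟨_, h⟩)
        · exact Or.inr hu
        · exact Or.inl rfl
        · exact Or.inr h
      · rintro (rfl | h)
        · exact Or.inr (Or.inl rfl)
        · by_cases hw : w = u
          · exact Or.inl hw
          · exact Or.inr (Or.inr ⟨hw, h⟩)
    · rw [disjoint_singleton_left]; exact h2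
    · rw [disjoint_singleton_left]
      simp [huy]
  rw [ar_singleton_left, ar_singleton_left] at h3
  have h5 : (nO R (insert y Z₂) u).card ≤ (nO R (insert y (Z₂.erase u)) u).card + (if R u u then 1 else 0) := by
    by_cases hr : R u u
    · rw [if_pos hr]
      refine le_trans (card_le_card ?_) (card_insert_le u _)
      intro w hw
      rw [mem_nO, mem_insert] at hw
      rw [mem_insert, mem_nO, mem_insert, mem_erase]
      by_cases hwu : w = u
      · exact Or.inl hwu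
      · rcases hw with ⟨h | h, hr⟩
        · exact Or.inr ⟨Or.inl h, hr⟩
        · exact Or.inr ⟨Or.inr ⟨hwu, h⟩, hr⟩
    · rw [if_neg hr, add_zero]
      apply card_le_card
      intro w hw
      rw [mem_nO, mem_insert] at hw
      rw [mem_nO, mem_insert, mem_erase]
      have hwu : w ≠ u := fun e => hr (e ▸ hw.2)
      rcases hw with ⟨h | h, hr⟩
      · exact ⟨Or.inl h, hr⟩
      · exact ⟨Or.inr ⟨hwu, h⟩, hr⟩
  omega

/-- **Existence of cuts** -/
theorem exists_cut (hT : AE32.Tour R) (Z : Finset V) (z₁ z₂ : ℕ) (h : Z.card = z₁ + z₂ + 1) :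
    ∃ Z₁ Z₂ y, IsCut R Z Z₁ Z₂ y ∧ Z₁.card = z₁ ∧ Z₂.card = z₂ := by
  obtain ⟨T, hT', hmax⟩ := exists_max_image
    ((Z.powerset ×ˢ (Z.powerset ×ˢ Z)).filter (fun p : Finset V × (Finset V × V) =>
      p.2.2 ∉ p.1 ∧ p.2.2 ∉ p.2.1 ∧ Disjoint p.1 p.2.1 ∧ p.1.card = z₁ ∧ p.2.1.card = z₂))
    (fun p => wt R p.1 p.2.1 p.2.2) (by
      obtain ⟨A, hA, hAc⟩ := exists_subset_card_eq (s := Z) (n := z₁) (by omega)
      obtain ⟨B, hB, hBc⟩ := exists_subset_card_eq (s := Z \ A) (n := z₂) (by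
        rw [card_sdiff_of_subset hA]; omega)
      have hAB : Disjoint A B := by
        rw [disjoint_left]
        intro w h1 h2
        exact (mem_sdiff.1 (hB h2)).2 h1
      have hBZ : B ⊆ Z := hB.trans sdiff_subset
      obtain ⟨y, hy⟩ : (Z \ (A ∪ B)).Nonempty := by
        rw [← card_pos, card_sdiff_of_subset (union_subset hA hBZ), card_union_of_disjoint hAB]
        omega
      rw [mem_sdiff, mem_union, not_or] at hy
      refine ⟨(A, (B, y)), ?_⟩
      simp only [mem_filter, mem_product, mem_powerset]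
      exact ⟨⟨hA, hBZ, hy.1⟩, hy.2.1, hy.2.2, hAB, hAc, hBc⟩)
  obtain ⟨Z₁, Z₂, y⟩ := T
  simp only [mem_filter, mem_product, mem_powerset] at hT' hmax
  obtain ⟨⟨hZ₁, hZ₂, hy⟩, h1, h2, hd, hc1, hc2⟩ := hT'
  have hmax' : ∀ A B : Finset V, ∀ u : V, A ⊆ Z → B ⊆ Z → u ∈ Z → u ∉ A → u ∉ B → Disjoint A B → A.card = z₁ →
      B.card = z₂ → wt R A B u ≤ wt R Z₁ Z₂ y := fun A B u ha hb hu h1 h2 h3 h4 h5 =>
    hmax (A, (B, u)) ⟨⟨ha, hb, hu⟩, h1, h2, h3, h4, h5⟩
  have hZ : Z = insert y (Z₁ ∪ Z₂) := by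
    symm
    apply eq_of_subset_of_card_le
    · exact insert_subset hy (union_subset hZ₁ hZ₂)
    · rw [card_insert_of_notMem (by rw [mem_union, not_or]; exact ⟨h1, h2⟩), card_union_of_disjoint hd]
      omega
  refine ⟨Z₁, Z₂, y, ⟨h1, h2, hd, hZ, ?_, ?_, ?_⟩, hc1, hc2⟩
  · intro u hu
    have h3 := cut_out (R := R) h1 h2 hd (fun u hu => by
      have huy : u ≠ y := fun e => h2 (e ▸ hu)
      refine hmax' _ _ _ hZ₁ (insert_subset hy ((erase_subset _ _).trans hZ₂)) (hZ₂ hu)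
        (fun h => disjoint_left.1 hd h hu) (by simp [huy]) ?_ hc1 ?_
      · rw [disjoint_insert_right]
        exact ⟨h1, disjoint_of_subset_right (erase_subset _ _) hd⟩
      · rw [card_insert_of_notMem (fun h => h2 (mem_of_mem_erase h)), card_erase_add_one hu, hc2]) u hu
    rw [if_neg (hT.irr u), add_zero] at h3
    exact h3
  · intro u hu
    have h3 := cut_out (R := fun a b => R b a) (Z₁ := Z₂) (Z₂ := Z₁) (y := y) h2 h1 hd.symm (fun u hu => by
      have huy : u ≠ y := fun e => h1 (e ▸ hu)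
      have h4 := hmax' (insert y (Z₁.erase u)) Z₂ u (insert_subset hy ((erase_subset _ _).trans hZ₁)) hZ₂ (hZ₁ hu)
        (by simp [huy]) (fun h => disjoint_left.1 hd hu h) (by
          rw [disjoint_insert_left]
          exact ⟨h2, disjoint_of_subset_left (erase_subset _ _) hd⟩) (by
          rw [card_insert_of_notMem (fun h => h1 (mem_of_mem_erase h)), card_erase_add_one hu, hc1]) hc2
      unfold wt at h4 ⊢
      simp only [ar_rev]
      omega) u hu
    rw [if_neg (hT.irr u), add_zero] at h3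
    exact h3
  · intro S₁ hS₁ S₂ hS₂ hc
    have hd12 : Disjoint S₁ S₂ := disjoint_of_subset_left hS₁ (disjoint_of_subset_right hS₂ hd)
    have hA1 : Disjoint (Z₁ \ S₁) S₁ := sdiff_disjoint
    have hA2 : Disjoint (Z₁ \ S₁) S₂ := disjoint_of_subset_left sdiff_subset (disjoint_of_subset_right hS₂ hd)
    have hB2 : Disjoint (Z₂ \ S₂) S₂ := sdiff_disjoint
    have hB1 : Disjoint (Z₂ \ S₂) S₁ := disjoint_of_subset_left sdiff_subset (disjoint_of_subset_right hS₁ hd.symm)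
    have hAB : Disjoint (Z₁ \ S₁) (Z₂ \ S₂) := disjoint_of_subset_left sdiff_subset (disjoint_of_subset_right sdiff_subset hd)
    have e1 : Z₁ \ S₁ ∪ S₁ = Z₁ := sdiff_union_of_subset hS₁
    have e2 : Z₂ \ S₂ ∪ S₂ = Z₂ := sdiff_union_of_subset hS₂
    have h3 := hmax' (Z₁ \ S₁ ∪ S₂) (Z₂ \ S₂ ∪ S₁) y (union_subset (sdiff_subset.trans hZ₁) (hS₂.trans hZ₂))
      (union_subset (sdiff_subset.trans hZ₂) (hS₁.trans hZ₁)) hy
      (by
        rw [mem_union, not_or]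
        exact ⟨fun h => h1 (sdiff_subset h), fun h => h2 (hS₂ h)⟩)
      (by
        rw [mem_union, not_or]
        exact ⟨fun h => h2 (sdiff_subset h), fun h => h1 (hS₁ h)⟩)
      (by
        rw [disjoint_union_left, disjoint_union_right, disjoint_union_right]
        exact ⟨⟨hAB, hA1⟩, hB2.symm, hd12.symm⟩)
      (by
        rw [card_union_of_disjoint hA2, card_sdiff_of_subset hS₁]
        have := card_le_card hS₁
        omega)
      (by
        rw [card_union_of_disjoint hB1, card_sdiff_of_subset hS₂]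
        have := card_le_card hS₂
        omega)
    have h4 : wt R Z₁ Z₂ y = ar R (Z₁ \ S₁) {y} + ar R S₁ {y} + (ar R {y} (Z₂ \ S₂) + ar R {y} S₂) +
        (ar R (Z₁ \ S₁) (Z₂ \ S₂) + ar R S₁ (Z₂ \ S₂) + (ar R (Z₁ \ S₁) S₂ + ar R S₁ S₂)) := by
      conv_lhs => rw [wt, ← e1, ← e2]
      rw [ar_union_left hA1, ar_union_right hB2, ar_union_right hB2, ar_union_left hA1, ar_union_left hA1]
    have h5 : wt R (Z₁ \ S₁ ∪ S₂) (Z₂ \ S₂ ∪ S₁) y = ar R (Z₁ \ S₁) {y} + ar R S₂ {y} +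
        (ar R {y} (Z₂ \ S₂) + ar R {y} S₁) +
        (ar R (Z₁ \ S₁) (Z₂ \ S₂) + ar R S₂ (Z₂ \ S₂) + (ar R (Z₁ \ S₁) S₁ + ar R S₂ S₁)) := by
      rw [wt, ar_union_left hA2, ar_union_right hB1, ar_union_right hB1, ar_union_left hA2, ar_union_left hA2]
    rw [h4, h5] at h3
    have h6 := ar_le (R := R) S₁ {y}
    have h7 := ar_le (R := R) {y} S₂
    rw [card_singleton, mul_one] at h6
    rw [card_singleton, one_mul] at h7
    omega

/-- dominators inside the upper part -/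
theorem IsCut.dom_out (hT : AE32.Tour R) {Z Z₁ Z₂ : Finset V} {y : V} (h : IsCut R Z Z₁ Z₂ y) :
    ∀ u ∈ Z₂, R u y → (nO R (nI R Z₂ y) u).card + 1 ≤ (nI R (nO R Z₂ y) u).card := by
  intro u hu huy
  have h1 := h.out u hu
  have hyu : u ∉ nO R Z₂ y := fun h' => hT.asym _ _ huy (mem_nO.1 h').2
  have h2 := card_nO_add_nI hT hyu
  have h3 : insert y (nO R (nI R Z₂ y) u ∪ nO R (nO R Z₂ y) u) ⊆ nO R (insert y Z₂) u := by
    intro w hw
    rw [mem_insert, mem_union] at hw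
    rcases hw with h' | h' | h'
    · rw [h']; exact mem_nO.2 ⟨mem_insert_self _ _, huy⟩
    · exact mem_nO.2 ⟨mem_insert_of_mem (nI_sub (nO_sub h')), (mem_nO.1 h').2⟩
    · exact mem_nO.2 ⟨mem_insert_of_mem (nO_sub (nO_sub h')), (mem_nO.1 h').2⟩
  have h4 : (insert y (nO R (nI R Z₂ y) u ∪ nO R (nO R Z₂ y) u)).card =
      (nO R (nI R Z₂ y) u).card + (nO R (nO R Z₂ y) u).card + 1 := by
    rw [card_insert_of_notMem, card_union_of_disjoint]
    · rw [disjoint_left]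
      intro w h5 h6
      exact hT.asym _ _ (mem_nI.1 (nO_sub h5)).2 (mem_nO.1 (nO_sub h6)).2
    · rw [mem_union, not_or]
      exact ⟨fun h' => h.h2 (nI_sub (nO_sub h')), fun h' => h.h2 (nO_sub (nO_sub h'))⟩
  have h5 := card_le_card h3
  omega

theorem IsCut.dom_in (hT : AE32.Tour R) {Z Z₁ Z₂ : Finset V} {y : V} (h : IsCut R Z Z₁ Z₂ y) :
    ∀ u ∈ Z₁, R y u → (nI R (nO R Z₁ y) u).card + 1 ≤ (nO R (nI R Z₁ y) u).card :=
  IsCut.dom_out (tour_rev hT) h.rev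

/-- the out-degree of `y` in the upper part -/
theorem IsCut.deg_out (hT : AE32.Tour R) {Z Z₁ Z₂ : Finset V} {y : V} (h : IsCut R Z Z₁ Z₂ y) :
    Z₂.card ≤ 2 * (nO R Z₂ y).card := by
  have h1 := two_mul_sum_nO hT (insert y Z₂)
  have hc : (insert y Z₂).card = Z₂.card + 1 := card_insert_of_notMem h.h2
  have h2 : ∑ a ∈ insert y Z₂, (nO R (insert y Z₂) a).card ≤ (insert y Z₂).card * (nO R Z₂ y).card := by
    rw [← smul_eq_mul]
    apply sum_le_card_nsmul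
    intro a ha
    rcases mem_insert.1 ha with rfl | ha
    · apply card_le_card
      intro w hw
      rw [mem_nO, mem_insert] at hw
      rw [mem_nO]
      rcases hw with ⟨rfl | h', hr⟩
      · exact absurd hr (hT.irr _)
      · exact ⟨h', hr⟩
    · exact h.out a ha
  rw [hc] at h1 h2
  have h3 : (Z₂.card + 1) * Z₂.card ≤ (Z₂.card + 1) * (2 * (nO R Z₂ y).card) := by
    calc (Z₂.card + 1) * Z₂.card = (Z₂.card + 1) * (Z₂.card + 1 - 1) := by rw [Nat.add_sub_cancel]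
      _ = 2 * ∑ a ∈ insert y Z₂, (nO R (insert y Z₂) a).card := h1.symm
      _ ≤ 2 * ((Z₂.card + 1) * (nO R Z₂ y).card) := Nat.mul_le_mul_left _ h2
      _ = (Z₂.card + 1) * (2 * (nO R Z₂ y).card) := by ring
  exact Nat.le_of_mul_le_mul_left h3 (Nat.succ_pos _)

theorem IsCut.deg_in (hT : AE32.Tour R) {Z Z₁ Z₂ : Finset V} {y : V} (h : IsCut R Z Z₁ Z₂ y) :
    Z₁.card ≤ 2 * (nI R Z₁ y).card :=
  IsCut.deg_out (tour_rev hT) h.rev

/-- dominators of the vertices with few out-neighbours in the upper part -/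
theorem IsCut.dom_out_few (hT : AE32.Tour R) {Z Z₁ Z₂ : Finset V} {y u : V} (h : IsCut R Z Z₁ Z₂ y) (hu : u ∉ Z₂) :
    Z₂.card ≤ 2 * (nI R (nO R Z₂ y) u).card + 2 * (nO R Z u).card := by
  have h1 := h.deg_out hT
  have h2 := card_nO_add_nI hT (X := nO R Z₂ y) (v := u) (fun h' => hu (nO_sub h'))
  have h3 : (nO R (nO R Z₂ y) u).card ≤ (nO R Z u).card := by
    apply card_le_card
    apply nO_mono
    rw [h.hZ]
    exact nO_sub.trans (subset_union_right.trans (subset_insert _ _))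
  omega

theorem IsCut.dom_in_few (hT : AE32.Tour R) {Z Z₁ Z₂ : Finset V} {y u : V} (h : IsCut R Z Z₁ Z₂ y) (hu : u ∉ Z₁) :
    Z₁.card ≤ 2 * (nO R (nI R Z₁ y) u).card + 2 * (nI R Z u).card :=
  IsCut.dom_out_few (tour_rev hT) h.rev hu

/-- arcs from `S` to a set of vertices with few in-neighbours in `C` -/
theorem ar_le_of_few {S B C : Finset V} {k : ℝ} (hS : S ⊆ C) (hB : ∀ z ∈ B, ((nI R C z).card : ℝ) ≤ k) :
    (ar R S B : ℝ) ≤ k * B.card := by
  rw [ar_eq]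
  push_cast
  have h : ∀ z ∈ B, ((nI R S z).card : ℝ) ≤ k := fun z hz =>
    le_trans (by exact_mod_cast card_le_card (nI_mono hS)) (hB z hz)
  refine (sum_le_sum h).trans ?_
  rw [sum_const, nsmul_eq_mul, mul_comm]

/-- **Closed sets do not cross the cut** -/
theorem IsCut.closed_out (hT : AE32.Tour R) {Z Z₁ Z₂ U C : Finset V} {y : V} (h : IsCut R Z Z₁ Z₂ y) (hZU : Z ⊆ U)
    {κ₀ : ℝ} (h0 : 0 < κ₀) (hκ : κ₀ ≤ 1 / 4) (hn : 8 ≤ κ₀ * U.card) (hC : Closed R (κ₀ ^ 2 / 4) U C) :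
    ((Z₁ ∩ C).card : ℝ) ≤ κ₀ * U.card ∨ ((Z₂ \ C).card : ℝ) ≤ κ₀ * U.card := by
  obtain ⟨n, hnd⟩ : ∃ n : ℝ, n = (U.card : ℝ) := ⟨_, rfl⟩
  rw [← hnd] at hn ⊢
  have hn0 : 0 < n := by
    by_contra hc
    push Not at hc
    have := mul_nonpos_of_nonneg_of_nonpos h0.le hc
    linarith
  by_contra hcon
  push Not at hcon
  obtain ⟨hcon1, hcon2⟩ := hcon
  have hZ₁U : Z₁ ⊆ U := fun w hw => hZU (by rw [h.hZ]; exact mem_insert_of_mem (mem_union_left _ hw))
  have hZ₂U : Z₂ ⊆ U := fun w hw => hZU (by rw [h.hZ]; exact mem_insert_of_mem (mem_union_right _ hw))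
  obtain ⟨s, hs⟩ : ∃ s : ℕ, s = min (Z₁ ∩ C).card (Z₂ \ C).card := ⟨_, rfl⟩
  have hs0 : κ₀ * n < s := by
    rw [hs]
    push_cast
    exact lt_min hcon1 hcon2
  obtain ⟨S₁, hS₁, hc1⟩ := exists_subset_card_eq (s := Z₁ ∩ C) (n := s) (by rw [hs]; exact min_le_left _ _)
  obtain ⟨S₂, hS₂, hc2⟩ := exists_subset_card_eq (s := Z₂ \ C) (n := s) (by rw [hs]; exact min_le_right _ _)
  have hS₁Z : S₁ ⊆ Z₁ := hS₁.trans inter_subset_left
  have hS₁C : S₁ ⊆ C := hS₁.trans inter_subset_right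
  have hS₂Z : S₂ ⊆ Z₂ := hS₂.trans sdiff_subset
  have hS₂C : ∀ z ∈ S₂, z ∉ C := fun z hz => (mem_sdiff.1 (hS₂ hz)).2
  have hex := h.ex S₁ hS₁Z S₂ hS₂Z (by rw [hc1, hc2])
  rw [hc1] at hex
  obtain ⟨k, hk⟩ : ∃ k : ℝ, k = κ₀ ^ 2 / 4 * n := ⟨_, rfl⟩
  have hk0 : 0 ≤ k := by rw [hk]; positivity
  have hfew : ∀ z ∈ U, z ∉ C → ((nI R C z).card : ℝ) ≤ k := fun z hz hzC => by
    rw [hk, hnd]; exact (hC z hz hzC).le
  have hdS : Disjoint S₂ S₁ := by
    rw [disjoint_left]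
    intro w h1 h2
    exact hS₂C w h1 (hS₁C h2)
  have hfS₂ : ∀ z ∈ S₂, ((nI R C z).card : ℝ) ≤ k := fun z hz => hfew z (hZ₂U (hS₂Z hz)) (hS₂C z hz)
  obtain ⟨sr, hsr⟩ : ∃ sr : ℝ, sr = (s : ℝ) := ⟨_, rfl⟩
  rw [← hsr] at hs0
  have hsr0 : 0 < sr := lt_trans (mul_pos h0 hn0) hs0
  -- arcs between `S₁` and `S₂`
  have e1 : (ar R S₁ S₂ : ℝ) ≤ k * sr := by
    have := ar_le_of_few (R := R) hS₁C hfS₂
    rw [hc2, ← hsr] at this
    exact this
  have e2 : (ar R S₂ S₁ : ℝ) + ar R S₁ S₂ = sr * sr := by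
    have := ar_add_ar hT hdS
    rw [hc1, hc2] at this
    rw [hsr]
    exact_mod_cast this
  -- the part `A`
  set A := Z₁ \ S₁ with hA
  set B := Z₂ \ S₂ with hB
  have hAU : A ⊆ U := sdiff_subset.trans hZ₁U
  have hBU : B ⊆ U := sdiff_subset.trans hZ₂U
  have hAn : ((A \ C).card : ℝ) ≤ n := by
    rw [hnd]; exact_mod_cast card_le_card (sdiff_subset.trans hAU)
  have hBn : ((B \ C).card : ℝ) ≤ n := by
    rw [hnd]; exact_mod_cast card_le_card (sdiff_subset.trans hBU)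
  have e3 : (ar R A S₂ : ℝ) ≤ (A \ C).card * sr + k * sr := by
    have h1 : ar R A S₂ = ar R (A \ C) S₂ + ar R (A ∩ C) S₂ := by
      rw [← ar_union_left (disjoint_sdiff_inter A C), sdiff_union_inter]
    have h2 := ar_le (R := R) (A \ C) S₂
    have h3 := ar_le_of_few (R := R) (S := A ∩ C) inter_subset_right hfS₂
    rw [hc2, ← hsr] at h3
    rw [hc2] at h2
    have h2' : (ar R (A \ C) S₂ : ℝ) ≤ (A \ C).card * sr := by rw [hsr]; exact_mod_cast h2
    rw [h1]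
    push_cast
    linarith
  have e4 : ((A \ C).card : ℝ) * sr - k * n ≤ ar R A S₁ := by
    have hd : Disjoint (A \ C) S₁ := by
      rw [disjoint_left]
      intro w h1 h2
      exact (mem_sdiff.1 h1).2 (hS₁C h2)
    have h1 := ar_add_ar hT hd
    have h2 : (ar R (A \ C) S₁ : ℝ) ≤ ar R A S₁ := by exact_mod_cast ar_mono sdiff_subset (Subset.refl _)
    have h3 : (ar R S₁ (A \ C) : ℝ) ≤ k * (A \ C).card := ar_le_of_few hS₁C (fun z hz => by
      rw [mem_sdiff] at hz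
      exact hfew z (hAU hz.1) hz.2)
    rw [hc1] at h1
    have h4 : (ar R (A \ C) S₁ : ℝ) + ar R S₁ (A \ C) = (A \ C).card * sr := by rw [hsr]; exact_mod_cast h1
    have h5 : k * (A \ C).card ≤ k * n := mul_le_mul_of_nonneg_left hAn hk0
    linarith
  have e5 : (ar R S₁ B : ℝ) ≤ (B ∩ C).card * sr + k * n := by
    have h1 : ar R S₁ B = ar R S₁ (B \ C) + ar R S₁ (B ∩ C) := by
      rw [← ar_union_right (disjoint_sdiff_inter B C), sdiff_union_inter]
    have h2 := ar_le (R := R) S₁ (B ∩ C)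
    rw [hc1] at h2
    have h2' : (ar R S₁ (B ∩ C) : ℝ) ≤ (B ∩ C).card * sr := by
      rw [hsr, mul_comm]; exact_mod_cast h2
    have h3 : (ar R S₁ (B \ C) : ℝ) ≤ k * (B \ C).card := ar_le_of_few hS₁C (fun z hz => by
      rw [mem_sdiff] at hz
      exact hfew z (hBU hz.1) hz.2)
    have h5 : k * (B \ C).card ≤ k * n := mul_le_mul_of_nonneg_left hBn hk0
    rw [h1]
    push_cast
    linarith
  have e6 : ((B ∩ C).card : ℝ) * sr - k * sr ≤ ar R S₂ B := by
    have hd : Disjoint S₂ (B ∩ C) := by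
      rw [disjoint_left]
      intro w h1 h2
      exact hS₂C w h1 (mem_inter.1 h2).2
    have h1 := ar_add_ar hT hd
    have h2 : (ar R S₂ (B ∩ C) : ℝ) ≤ ar R S₂ B := by exact_mod_cast ar_mono (Subset.refl _) inter_subset_left
    have h3 := ar_le_of_few (R := R) (S := B ∩ C) inter_subset_right hfS₂
    rw [hc2, ← hsr] at h3
    rw [hc2] at h1
    have h4 : (ar R S₂ (B ∩ C) : ℝ) + ar R (B ∩ C) S₂ = (B ∩ C).card * sr := by
      rw [hsr, mul_comm]; exact_mod_cast h1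
    linarith
  have e7 : (ar R A S₁ : ℝ) + ar R S₂ B + ar R S₂ S₁ ≤ 2 * sr + (ar R A S₂ + ar R S₁ B + ar R S₁ S₂) := by
    rw [hsr]; exact_mod_cast hex
  have e8 : sr * sr ≤ 2 * sr + 4 * (k * sr) + 2 * (k * n) := by linarith
  have e9 : k * n ≤ κ₀ * n / 4 * sr := by
    have h1 : k * n = κ₀ * n / 4 * (κ₀ * n) := by rw [hk]; ring
    have h2 : κ₀ * n / 4 * (κ₀ * n) ≤ κ₀ * n / 4 * sr := mul_le_mul_of_nonneg_left hs0.le (by positivity)
    linarith
  have e10 : k * sr ≤ κ₀ * n / 16 * sr := by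
    apply mul_le_mul_of_nonneg_right _ hsr0.le
    have h1 : κ₀ * (κ₀ * n) ≤ 1 / 4 * (κ₀ * n) := mul_le_mul_of_nonneg_right hκ (by positivity)
    have h2 : k = κ₀ * (κ₀ * n) / 4 := by rw [hk]; ring
    linarith
  have e11 : 2 * sr ≤ κ₀ * n / 4 * sr := mul_le_mul_of_nonneg_right (by linarith) hsr0.le
  have e12 : κ₀ * n * sr < sr * sr := mul_lt_mul_of_pos_right hs0 hsr0
  linarith

theorem IsCut.closed_in (hT : AE32.Tour R) {Z Z₁ Z₂ U C : Finset V} {y : V} (h : IsCut R Z Z₁ Z₂ y) (hZU : Z ⊆ U)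
    {κ₀ : ℝ} (h0 : 0 < κ₀) (hκ : κ₀ ≤ 1 / 4) (hn : 8 ≤ κ₀ * U.card)
    (hC : Closed (fun a b => R b a) (κ₀ ^ 2 / 4) U C) :
    ((Z₂ ∩ C).card : ℝ) ≤ κ₀ * U.card ∨ ((Z₁ \ C).card : ℝ) ≤ κ₀ * U.card :=
  IsCut.closed_out (tour_rev hT) h.rev hZU h0 hκ hn hC

end AECut
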