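import Pool.Agent.AE15.Structure

/-!
# The structure lemma with an arbitrary size
-/

namespace AECut

open Finset AE15
open scoped Classical

variable {V : Type*} {R : V → V → Prop}

/-- **Structure lemma, size version**: a set `U` of size at least `s` such that all other vertices have few
out-neighbours in it and every closed set which has a substantial part of `U` contains the complement of `U` and
almost all of `U`: fewer than `s` vertices are missing. -/
theorem struct_size (hT : AE32.Tour R) (X : Finset V) {κ₀ s : ℝ} (h0 : 0 < κ₀) (hκ : κ₀ ≤ 1) (hs : s ≤ X.card)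
    (hn : 1 ≤ κ₀ * X.card) :
    ∃ U ⊆ X, s ≤ U.card ∧ (∀ z ∈ X, z ∉ U → ((nO R U z).card : ℝ) < κ₀ * X.card) ∧
      ∀ C ⊆ X, Closed R (κ₀ ^ 2 / 4) X C → 2 * κ₀ * X.card ≤ ((U ∩ C).card : ℝ) →
        X \ U ⊆ C ∧ ((U \ C).card : ℝ) < s := by
  obtain ⟨n, hnd⟩ : ∃ n : ℝ, n = (X.card : ℝ) := ⟨_, rfl⟩
  rw [← hnd] at hn hs ⊢
  have hn0 : 0 ≤ n := by rw [hnd]; positivity
  have hnpos : 0 < n := by
    rcases hn0.eq_or_lt with h | h
    · rw [← h] at hn; norm_num at hn
    · exact h
  -- a minimal set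
  set P : Finset V → Prop := fun U => s ≤ U.card ∧ ∀ z ∈ X, z ∉ U → ((nO R U z).card : ℝ) < κ₀ * n with hP
  have hne : (X.powerset.filter P).Nonempty := by
    refine ⟨X, ?_⟩
    simp only [mem_filter, mem_powerset]
    refine ⟨Subset.refl _, ?_, fun z hz hz' => absurd hz hz'⟩
    rw [← hnd]; exact hs
  obtain ⟨U, hU, hmin⟩ := exists_min_image _ (fun U => U.card) hne
  simp only [mem_filter, mem_powerset] at hU hmin
  obtain ⟨hUX, hUη, hUz⟩ := hU
  have hUn : (U.card : ℝ) ≤ n := by rw [hnd]; exact_mod_cast card_le_card hUX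
  refine ⟨U, hUX, hUη, hUz, ?_⟩
  intro C hCX hC hUC
  have hκn : κ₀ ^ 2 / 4 * n ≤ κ₀ * n := by nlinarith
  -- `C` contains `X \ U`
  have hXU : X \ C ⊆ U \ C := by
    intro z hz
    rw [mem_sdiff] at hz ⊢
    refine ⟨?_, hz.2⟩
    by_contra hzU
    have h1 := hC z hz.1 hz.2
    rw [← hnd] at h1
    have h2 := hUz z hz.1 hzU
    have h3 := card_nO_add_nI hT (X := U ∩ C) (v := z) (fun h => hzU (mem_inter.1 h).1)
    have h4 : ((nO R (U ∩ C) z).card : ℝ) ≤ (nO R U z).card := by
      exact_mod_cast card_le_card (nO_mono inter_subset_left)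
    have h5 : ((nI R (U ∩ C) z).card : ℝ) ≤ (nI R C z).card := by
      exact_mod_cast card_le_card (nI_mono inter_subset_right)
    have h6 : ((nO R (U ∩ C) z).card : ℝ) + (nI R (U ∩ C) z).card = (U ∩ C).card := by exact_mod_cast h3
    linarith
  refine ⟨?_, ?_⟩
  · intro z hz
    rw [mem_sdiff] at hz
    by_contra hzC
    exact hz.2 (mem_sdiff.1 (hXU (mem_sdiff.2 ⟨hz.1, hzC⟩))).1
  by_contra hc
  push Not at hc
  -- the few vertices
  set F := (U ∩ C).filter (fun z => κ₀ * n / 2 ≤ ((nO R (U \ C) z).card : ℝ)) with hF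
  have hF1 : (F.card : ℝ) ≤ κ₀ * n / 2 := by
    have h1 : ∑ z ∈ F, ((nO R (U \ C) z).card : ℝ) = ∑ y ∈ U \ C, ((nI R F y).card : ℝ) := by
      exact_mod_cast sum_nO_eq_sum_nI F (U \ C)
    have h2 : (F.card : ℝ) * (κ₀ * n / 2) ≤ ∑ z ∈ F, ((nO R (U \ C) z).card : ℝ) := by
      rw [← nsmul_eq_mul]
      exact card_nsmul_le_sum _ _ _ (fun z hz => (mem_filter.1 hz).2)
    have h3 : ∑ y ∈ U \ C, ((nI R F y).card : ℝ) ≤ ∑ y ∈ U \ C, (κ₀ ^ 2 / 4 * n) := by
      refine sum_le_sum (fun y hy => ?_)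
      rw [mem_sdiff] at hy
      have h4 := hC y (hUX hy.1) hy.2
      rw [← hnd] at h4
      have h5 : ((nI R F y).card : ℝ) ≤ (nI R C y).card := by
        exact_mod_cast card_le_card (nI_mono ((filter_subset _ _).trans inter_subset_right))
      linarith
    rw [sum_const, nsmul_eq_mul] at h3
    have h4 : ((U \ C).card : ℝ) ≤ n := by
      refine le_trans ?_ hUn
      exact_mod_cast card_le_card sdiff_subset
    have h5 : (F.card : ℝ) * (κ₀ * n / 2) ≤ n * (κ₀ ^ 2 / 4 * n) := by
      refine (h2.trans (h1.le.trans h3)).trans ?_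
      have : 0 ≤ κ₀ ^ 2 / 4 * n := by positivity
      nlinarith
    have h6 : 0 < κ₀ * n := by positivity
    have h7 : (F.card : ℝ) * (κ₀ * n) ≤ (κ₀ * n / 2) * (κ₀ * n) := by nlinarith
    exact le_of_mul_le_mul_right h7 h6
  have hsub : (U \ C) ∪ F ⊆ U := by
    apply union_subset sdiff_subset
    exact (filter_subset _ _).trans inter_subset_left
  have hPU : P ((U \ C) ∪ F) := by
    constructor
    · refine hc.trans ?_
      exact_mod_cast card_le_card subset_union_left
    · intro z hz hzU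
      rw [mem_union, not_or] at hzU
      by_cases hzU' : z ∈ U
      · have hzC : z ∈ C := by
          by_contra h
          exact hzU.1 (mem_sdiff.2 ⟨hzU', h⟩)
        have h1 : ((nO R (U \ C) z).card : ℝ) < κ₀ * n / 2 := by
          by_contra h
          push Not at h
          exact hzU.2 (mem_filter.2 ⟨mem_inter.2 ⟨hzU', hzC⟩, h⟩)
        have h2 : nO R ((U \ C) ∪ F) z ⊆ nO R (U \ C) z ∪ F := by
          intro w hw
          rw [mem_nO, mem_union] at hw
          rw [mem_union, mem_nO]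
          rcases hw.1 with h | h
          · exact Or.inl ⟨h, hw.2⟩
          · exact Or.inr h
        have h3 : ((nO R ((U \ C) ∪ F) z).card : ℝ) ≤ (nO R (U \ C) z).card + F.card := by
          exact_mod_cast (card_le_card h2).trans (card_union_le _ _)
        linarith
      · have h1 := hUz z hz hzU'
        have h2 : ((nO R ((U \ C) ∪ F) z).card : ℝ) ≤ (nO R U z).card := by
          exact_mod_cast card_le_card (nO_mono hsub)
        linarith
  have h8 := hmin _ ⟨hsub.trans hUX, hPU⟩
  have h9 : U.card = (U \ C).card + (U ∩ C).card := (card_sdiff_add_card_inter U C).symm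
  have h10 : ((U \ C) ∪ F).card ≤ (U \ C).card + F.card := card_union_le _ _
  have h11 : ((U ∩ C).card : ℝ) ≤ F.card := by
    have : (U ∩ C).card ≤ F.card := by omega
    exact_mod_cast this
  have h12 : 0 < κ₀ * n := by positivity
  linarith

/-- the vertices of small out-degree in a set of the structure lemma -/
theorem card_few (hT : AE32.Tour R) (U : Finset V) {k : ℝ} (hk : 0 ≤ k) :
    ((U.filter (fun v => ((nO R U v).card : ℝ) < k)).card : ℝ) ≤ 2 * k + 1 := by
  have h2 := card_low hT U ⌊k⌋₊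
  have h3 : ((⌊k⌋₊ : ℕ) : ℝ) ≤ k := Nat.floor_le hk
  have h5 : (U.filter (fun v => ((nO R U v).card : ℝ) < k)).card ≤
      (U.filter (fun v => (nO R U v).card ≤ ⌊k⌋₊)).card := by
    apply card_le_card
    intro v hv
    rw [mem_filter] at hv ⊢
    exact ⟨hv.1, Nat.le_floor hv.2.le⟩
  have h4 : ((U.filter (fun v => ((nO R U v).card : ℝ) < k)).card : ℝ) ≤ ((2 * ⌊k⌋₊ + 1 : ℕ) : ℝ) := by
    exact_mod_cast h5.trans h2
  push_cast at h4
  linarith

end AECut
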