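import Pool.Agent.AECut.Defs
import Pool.Agent.AECut.MaxCut
import Pool.Agent.AECut.StructP

/-!
# One side of an optimal cut
-/

namespace AECut

open Finset AE15 SPD
open scoped Classical

variable {V : Type*} {R : V → V → Prop}

/-- the base of a set of the structure lemma: the vertices with many out-neighbours in it -/
noncomputable def base (R : V → V → Prop) (κ₀ : ℝ) (U U₀ : Finset V) : Finset V :=
  U₀.filter (fun u => 2 * κ₀ * U.card ≤ ((nO R U₀ u).card : ℝ))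

theorem mem_base {κ₀ : ℝ} {U U₀ : Finset V} {u : V} :
    u ∈ base R κ₀ U U₀ ↔ u ∈ U₀ ∧ 2 * κ₀ * U.card ≤ ((nO R U₀ u).card : ℝ) := by simp [base]

theorem base_sub {κ₀ : ℝ} {U U₀ : Finset V} : base R κ₀ U U₀ ⊆ U₀ := filter_subset _ _

/-- the data of one side of a cut: `U₀` is a set of the structure lemma, the part is `Z₂ ∪ (U \ base)` -/
structure CutData (R : V → V → Prop) (κ₀ s₀ : ℝ) (c : ℕ) (U U₀ E' W Z Z₁ Z₂ : Finset V) (y : V) : Prop where
  cut : IsCut R Z Z₁ Z₂ y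
  sub : U₀ ⊆ U
  str : ∀ z ∈ U, z ∉ U₀ → ((nO R U₀ z).card : ℝ) < κ₀ * U.card
  cl : ∀ C ⊆ U, Closed R (κ₀ ^ 2 / 4) U C → 2 * κ₀ * U.card ≤ ((U₀ ∩ C).card : ℝ) →
    U \ U₀ ⊆ C ∧ ((U₀ \ C).card : ℝ) < s₀
  part : base R κ₀ U U₀ = Z ∪ (E' ∪ W)
  few : ∀ a ∈ E', ((nI R Z a).card : ℝ) ≤ 2 * κ₀ * U.card
  inn : ∀ w ∈ Z₂, c ≤ (nI R (base R κ₀ U U₀) w).card

theorem CutData.sub_Z {κ₀ s₀ : ℝ} {c : ℕ} {U U₀ E' W Z Z₁ Z₂ : Finset V} {y : V}
    (h : CutData R κ₀ s₀ c U U₀ E' W Z Z₁ Z₂ y) : Z ⊆ base R κ₀ U U₀ := by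
  rw [h.part]
  exact subset_union_left

/-- the vertices of the base are out-good -/
theorem CutData.og (hT : AE32.Tour R) {κ₀ s₀ t : ℝ} {c : ℕ} {U U₀ E' W Z Z₁ Z₂ : Finset V} {y : V}
    (h : CutData R κ₀ s₀ c U U₀ E' W Z Z₁ Z₂ y) (h0 : 0 < κ₀) (h1 : κ₀ ≤ 1 / 4) (hn : 8 ≤ κ₀ * U.card)
    (ht1 : 8 * κ₀ * U.card + 1 ≤ t)
    (ht2 : ((Z₂ ∪ (U \ base R κ₀ U U₀)).card : ℝ) + s₀ + κ₀ * U.card + κ₀ ^ 2 / 2 * U.card + 1 + W.card ≤ U.card + t)
    {w : V} (hw : w ∈ base R κ₀ U U₀) : OG R U (Z₂ ∪ (U \ base R κ₀ U U₀)) (κ₀ ^ 2 / 4) t w := by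
  intro C hCU hwC hC
  obtain ⟨n, hnd⟩ : ∃ n : ℝ, n = (U.card : ℝ) := ⟨_, rfl⟩
  have hU0 : 0 < (U.card : ℝ) := by
    by_contra hc
    push Not at hc
    nlinarith
  have hZb := h.sub_Z
  have hZU : Z ⊆ U := hZb.trans (base_sub.trans h.sub)
  have hUC : 2 * κ₀ * U.card ≤ ((U₀ ∩ C).card : ℝ) := by
    refine (mem_base.1 hw).2.trans ?_
    have : nO R U₀ w ⊆ U₀ ∩ C := by
      intro v hv
      rw [mem_nO] at hv
      exact mem_inter.2 ⟨hv.1, hwC (mem_nO.2 ⟨h.sub hv.1, hv.2⟩)⟩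
    exact_mod_cast card_le_card this
  obtain ⟨hU₀C, hs₀⟩ := h.cl C hCU hC hUC
  -- the frozen vertices outside `C`
  have hE : (((U \ base R κ₀ U U₀) \ C).card : ℝ) ≤ 4 * κ₀ * U.card + 1 := by
    have h2 : (U \ base R κ₀ U U₀) \ C ⊆ U₀.filter (fun u => ((nO R U₀ u).card : ℝ) < 2 * κ₀ * U.card) := by
      intro u hu
      rw [mem_sdiff, mem_sdiff] at hu
      rw [mem_filter]
      have hu0 : u ∈ U₀ := by
        by_contra hc
        exact hu.2 (hU₀C (mem_sdiff.2 ⟨hu.1.1, hc⟩))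
      refine ⟨hu0, ?_⟩
      by_contra hc
      push Not at hc
      exact hu.1.2 (mem_base.2 ⟨hu0, hc⟩)
    have h3 := card_few hT U₀ (k := 2 * κ₀ * U.card) (by positivity)
    have h4 : (((U \ base R κ₀ U U₀) \ C).card : ℝ) ≤
        ((U₀.filter (fun u => ((nO R U₀ u).card : ℝ) < 2 * κ₀ * U.card)).card : ℝ) := by
      exact_mod_cast card_le_card h2
    linarith
  have hP : (((Z₂ ∪ (U \ base R κ₀ U U₀)) \ C).card : ℝ) ≤
      ((Z₂ \ C).card : ℝ) + ((U \ base R κ₀ U U₀) \ C).card := by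
    rw [union_sdiff_distrib]
    exact_mod_cast card_union_le _ _
  have hκn : 0 ≤ κ₀ * U.card := by positivity
  rcases h.cut.closed_out hT hZU h0 h1 hn hC with hA | hA
  swap
  · linarith
  · by_cases hE' : κ₀ ^ 2 / 2 * U.card < ((E' ∩ C).card : ℝ)
    · -- few vertices of `Z₂` outside `C`
      have hZ2U : Z₂ ⊆ Z := by
        rw [h.cut.hZ]
        exact subset_union_right.trans (subset_insert _ _)
      have hdis : Disjoint (Z₂ \ C) (E' ∩ C) := by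
        rw [disjoint_left]
        intro u hu hu'
        exact (mem_sdiff.1 hu).2 (mem_inter.1 hu').2
      have h2 := ar_add_ar hT hdis
      have h3 : (ar R (Z₂ \ C) (E' ∩ C) : ℝ) ≤ 2 * κ₀ * U.card * (E' ∩ C).card := by
        refine ar_le_of_few (C := Z) (sdiff_subset.trans hZ2U) (fun z hz => h.few z (mem_inter.1 hz).1)
      have h4 : (ar R (E' ∩ C) (Z₂ \ C) : ℝ) ≤ κ₀ ^ 2 / 4 * U.card * (Z₂ \ C).card := by
        refine ar_le_of_few (C := C) inter_subset_right (fun z hz => ?_)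
        rw [mem_sdiff] at hz
        exact (hC z (hZU (hZ2U hz.1)) hz.2).le
      have h5 : (ar R (Z₂ \ C) (E' ∩ C) : ℝ) + ar R (E' ∩ C) (Z₂ \ C) = (Z₂ \ C).card * (E' ∩ C).card := by
        exact_mod_cast h2
      have h6 : ((Z₂ \ C).card : ℝ) ≤ 4 * κ₀ * U.card := by
        have h7 : 0 < ((E' ∩ C).card : ℝ) := lt_of_le_of_lt (by positivity) hE'
        have h8 : κ₀ ^ 2 / 4 * U.card * (Z₂ \ C).card ≤ (E' ∩ C).card / 2 * (Z₂ \ C).card := by
          apply mul_le_mul_of_nonneg_right _ (by positivity)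
          linarith
        have h9 : ((Z₂ \ C).card : ℝ) * (E' ∩ C).card ≤ (4 * κ₀ * U.card) * (E' ∩ C).card := by
          nlinarith
        exact le_of_mul_le_mul_right h9 h7
      linarith
    · push Not at hE'
      have h2 : (U.card : ℝ) - s₀ < C.card := by
        have h3 : U \ C ⊆ U₀ \ C := by
          intro u hu
          rw [mem_sdiff] at hu ⊢
          refine ⟨?_, hu.2⟩
          by_contra hc
          exact hu.2 (hU₀C (mem_sdiff.2 ⟨hu.1, hc⟩))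
        have h4 : ((U \ C).card : ℝ) ≤ (U₀ \ C).card := by exact_mod_cast card_le_card h3
        have h5 : ((U \ C).card : ℝ) + C.card = U.card := by
          exact_mod_cast card_sdiff_add_card_eq_card hCU
        linarith
      have h3 : C ⊆ ((Z₂ ∪ (U \ base R κ₀ U U₀)) ∩ C) ∪ ((Z₁ ∩ C) ∪ ({y} ∪ ((E' ∩ C) ∪ W))) := by
        intro u hu
        have huU := hCU hu
        by_cases hub : u ∈ base R κ₀ U U₀
        · rw [h.part, h.cut.hZ] at hub
          simp only [mem_union, mem_insert, mem_inter, mem_singleton, mem_sdiff] at hub ⊢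
          tauto
        · apply mem_union_left
          exact mem_inter.2 ⟨mem_union_right _ (mem_sdiff.2 ⟨huU, hub⟩), hu⟩
      have h4 : (C.card : ℝ) ≤ ((Z₂ ∪ (U \ base R κ₀ U U₀)) ∩ C).card + ((Z₁ ∩ C).card + (1 + ((E' ∩ C).card + W.card))) := by
        have h5 := card_le_card h3
        have h6 := card_union_le ((Z₂ ∪ (U \ base R κ₀ U U₀)) ∩ C) ((Z₁ ∩ C) ∪ ({y} ∪ ((E' ∩ C) ∪ W)))
        have h7 := card_union_le (Z₁ ∩ C) ({y} ∪ ((E' ∩ C) ∪ W))
        have h8 := card_union_le {y} ((E' ∩ C) ∪ W)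
        have h9 := card_union_le (E' ∩ C) W
        rw [card_singleton] at h8
        exact_mod_cast (by omega : C.card ≤ ((Z₂ ∪ (U \ base R κ₀ U U₀)) ∩ C).card +
          ((Z₁ ∩ C).card + (1 + ((E' ∩ C).card + W.card))))
      have h5 : (((Z₂ ∪ (U \ base R κ₀ U U₀)) \ C).card : ℝ) + ((Z₂ ∪ (U \ base R κ₀ U U₀)) ∩ C).card =
          (Z₂ ∪ (U \ base R κ₀ U U₀)).card := by
        exact_mod_cast card_sdiff_add_card_inter _ C
      linarith

end AECut
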