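import Pool.Agent.AECut.Side

/-!
# One side of an optimal cut, class version
-/

namespace AECut

open Finset AE15 SPD
open scoped Classical

variable {V : Type*} {R : V → V → Prop}

/-- **One side of an optimal cut** -/
theorem CutData.sideC (hT : AE32.Tour R) {κ₀ s₀ t s τ : ℝ} {c : ℕ} {U U₀ E' W Z Z₁ Z₂ : Finset V} {y : V}
    (h : CutData R κ₀ s₀ c U U₀ E' W Z Z₁ Z₂ y) (h0 : 0 < κ₀) (h1 : κ₀ ≤ 1 / 4) (hn : 8 ≤ κ₀ * U.card)
    (ht1 : 8 * κ₀ * U.card + 1 ≤ t)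
    (ht2 : ((Z₂ ∪ (U \ base R κ₀ U U₀)).card : ℝ) + s₀ + κ₀ * U.card + κ₀ ^ 2 / 2 * U.card + 1 + W.card ≤ U.card + t)
    (hτ0 : 0 ≤ τ) (hs : 2 * s * (Z₂ ∪ (U \ base R κ₀ U U₀)).card ≤ (Z₂.card : ℝ))
    (hτ : 2 * τ * (Z₂ ∪ (U \ base R κ₀ U U₀)).card + 4 * κ₀ * U.card < (Z₂.card : ℝ)) :
    SideC R U (Z₂ ∪ (U \ base R κ₀ U U₀)) (κ₀ ^ 2 / 4 * U.card) t s τ c y := by
  have hrea : ∀ w ∈ base R κ₀ U U₀, Rea R U (Z₂ ∪ (U \ base R κ₀ U U₀)) (κ₀ ^ 2 / 4 * U.card) t w :=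
    fun w hw => (h.og hT h0 h1 hn ht1 ht2 hw).rea
  have hZb := h.sub_Z
  have hbU : base R κ₀ U U₀ ⊆ U := base_sub.trans h.sub
  have hZ2Z : Z₂ ⊆ Z := by
    rw [h.cut.hZ]
    exact subset_union_right.trans (subset_insert _ _)
  have hyZ : y ∈ Z := by
    rw [h.cut.hZ]
    exact mem_insert_self _ _
  have hyb := hZb hyZ
  -- dominators
  have hDm : ∀ u, nI R (nO R Z₂ y) u ⊆ Dm R U (Z₂ ∪ (U \ base R κ₀ U U₀)) (κ₀ ^ 2 / 4 * U.card) t c y u := by
    intro u w hw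
    rw [mem_nI, mem_nO] at hw
    rw [mem_Dm]
    have hwb := hZb (hZ2Z hw.1.1)
    refine ⟨mem_union_left _ hw.1.1, hw.1.2, hw.2, hrea w hwb, (h.inn w hw.1.1).trans (card_le_card ?_)⟩
    intro z hz
    rw [mem_nI] at hz
    rw [mem_filter]
    exact ⟨hbU hz.1, hz.2, hrea z hz.1⟩
  -- the number of dominators of frozen vertices
  have hE : ∀ u ∈ U \ base R κ₀ U U₀,
      (Z₂.card : ℝ) ≤ 2 * ((nI R (nO R Z₂ y) u).card : ℝ) + 4 * κ₀ * U.card := by
    intro u hu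
    rw [mem_sdiff] at hu
    have hu2 : u ∉ Z₂ := fun h' => hu.2 (hZb (hZ2Z h'))
    have h2 := h.cut.dom_out_few hT hu2
    have h3 : ((nO R Z u).card : ℝ) ≤ 2 * κ₀ * U.card := by
      have h4 : ((nO R Z u).card : ℝ) ≤ (nO R U₀ u).card := by
        exact_mod_cast card_le_card (nO_mono (hZb.trans base_sub))
      by_cases hu0 : u ∈ U₀
      · have h5 : ((nO R U₀ u).card : ℝ) < 2 * κ₀ * U.card := by
          by_contra hc
          push Not at hc
          exact hu.2 (mem_base.2 ⟨hu0, hc⟩)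
        linarith
      · have h5 := h.str u hu.1 hu0
        have h6 : 0 ≤ κ₀ * U.card := by positivity
        linarith
    have h4 : (Z₂.card : ℝ) ≤ 2 * (nI R (nO R Z₂ y) u).card + 2 * (nO R Z u).card := by exact_mod_cast h2
    linarith
  have hτ1 : 4 * κ₀ * U.card < (Z₂.card : ℝ) := by
    have : 0 ≤ 2 * τ * (Z₂ ∪ (U \ base R κ₀ U U₀)).card := by positivity
    linarith
  have hcnt : ∀ j : ℕ, (j : ℝ) ≤ τ * (Z₂ ∪ (U \ base R κ₀ U U₀)).card →
      ((Z₂ ∪ (U \ base R κ₀ U U₀)).filter (fun u => R u y ∧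
        (Dm R U (Z₂ ∪ (U \ base R κ₀ U U₀)) (κ₀ ^ 2 / 4 * U.card) t c y u).card ≤ j)).card ≤ 2 * j := by
    intro j hj
    have h2 : (Z₂ ∪ (U \ base R κ₀ U U₀)).filter (fun u => R u y ∧
        (Dm R U (Z₂ ∪ (U \ base R κ₀ U U₀)) (κ₀ ^ 2 / 4 * U.card) t c y u).card ≤ j) ⊆
        (nI R Z₂ y).filter (fun u => (nO R (nI R Z₂ y) u).card + 1 ≤ j) := by
      intro u hu
      rw [mem_filter, mem_union] at hu
      obtain ⟨hu1, hu2, hu3⟩ := hu
      have h3 := (card_le_card (hDm u)).trans hu3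
      rcases hu1 with hu1 | hu1
      · rw [mem_filter, mem_nI]
        exact ⟨⟨hu1, hu2⟩, (h.cut.dom_out hT u hu1 hu2).trans h3⟩
      · exfalso
        have h4 := hE u hu1
        have h5 : ((nI R (nO R Z₂ y) u).card : ℝ) ≤ j := by exact_mod_cast h3
        linarith
    refine (card_le_card h2).trans ?_
    rcases j with _ | j
    · simp
    · have h5 := card_low hT (nI R Z₂ y) j
      simp only [add_le_add_iff_right]
      omega
  refine ⟨⟨?_, ?_, hrea y hyb, ?_, ?_⟩, hcnt⟩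
  · exact union_subset (hZ2Z.trans (hZb.trans hbU)) sdiff_subset
  · rw [mem_union, not_or]
    exact ⟨h.cut.h2, fun h' => (mem_sdiff.1 h').2 hyb⟩
  · have h2 := h.cut.deg_out hT
    have h3 : (nO R Z₂ y).card ≤ ((Z₂ ∪ (U \ base R κ₀ U U₀)).filter (fun w => R y w ∧
        Rea R U (Z₂ ∪ (U \ base R κ₀ U U₀)) (κ₀ ^ 2 / 4 * U.card) t w)).card := by
      apply card_le_card
      intro w hw
      rw [mem_nO] at hw
      rw [mem_filter]
      exact ⟨mem_union_left _ hw.1, hw.2, hrea w (hZb (hZ2Z hw.1))⟩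
    have h4 : (Z₂.card : ℝ) ≤ 2 * ((Z₂ ∪ (U \ base R κ₀ U U₀)).filter (fun w => R y w ∧
        Rea R U (Z₂ ∪ (U \ base R κ₀ U U₀)) (κ₀ ^ 2 / 4 * U.card) t w)).card := by
      exact_mod_cast h2.trans (Nat.mul_le_mul_left 2 h3)
    linarith
  · intro u hu huy
    rcases mem_union.1 hu with hu1 | hu1
    · have h2 := h.cut.dom_out hT u hu1 huy
      have h3 := card_le_card (hDm u)
      exact card_pos.1 (by omega)
    · have h4 := hE u hu1
      have h5 : 0 < ((nI R (nO R Z₂ y) u).card : ℝ) := by linarith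
      have h6 : 0 < (nI R (nO R Z₂ y) u).card := by exact_mod_cast h5
      have h7 := card_le_card (hDm u)
      exact card_pos.1 (by omega)

end AECut
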